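import Pool.Agent.SuperLCS.Pure

set_option autoImplicit false

/-! Superalgebras given by a parity involution, the bilinear supercommutator, the lower central
series and its basic properties. -/

namespace Pool.Agent.SuperLCS

/-- a parity involution -/
class Par (A : Type*) [Ring A] [Algebra ℂ A] where
  ep : A →ₐ[ℂ] A
  inv : ∀ a, ep (ep a) = a

noncomputable section Basic

variable {A : Type*} [Ring A] [Algebra ℂ A] [Par A]

open Par

/-- scalar sign of a parity -/
def sgn (p : Bool) : ℂ := bif p then -1 else 1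

@[simp] theorem sgn_true : sgn true = -1 := rfl
@[simp] theorem sgn_false : sgn false = 1 := rfl

variable (A) in
/-- homogeneous elements of a given parity -/
def H (p : Bool) : Submodule ℂ A := LinearMap.ker ((ep (A := A)).toLinearMap - sgn p • LinearMap.id)

theorem mem_H {p : Bool} {a : A} : a ∈ H A p ↔ ep a = sgn p • a := by
  simp [H, sub_eq_zero]

theorem mem_H_true {a : A} : a ∈ H A true ↔ ep a = -a := by simp [mem_H]
theorem mem_H_false {a : A} : a ∈ H A false ↔ ep a = a := by simp [mem_H]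

theorem mul_H {p q : Bool} {a b : A} (ha : a ∈ H A p) (hb : b ∈ H A q) : a * b ∈ H A (xor p q) := by
  cases p <;> cases q <;> simp_all [mem_H]

theorem one_H : (1 : A) ∈ H A false := by simp [mem_H]

/-- the even part -/
def ev (a : A) : A := (1/2 : ℂ) • (a + ep a)
/-- the odd part -/
def od (a : A) : A := (1/2 : ℂ) • (a - ep a)

theorem ev_H (a : A) : ev a ∈ H A false := by
  simp [mem_H, ev, inv, add_comm]

theorem od_H (a : A) : od a ∈ H A true := by
  simp only [mem_H, od, map_smul, map_sub, inv, sgn_true]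
  module

theorem ev_add_od (a : A) : ev a + od a = a := by
  simp only [ev, od]
  module

theorem par_ind {P : A → Prop} (hh : ∀ p a, a ∈ H A p → P a)
    (hadd : ∀ a b, P a → P b → P (a + b)) (a : A) : P a := by
  rw [← ev_add_od a]
  exact hadd _ _ (hh _ _ (ev_H a)) (hh _ _ (od_H a))

/-- the swapped product with Koszul sign -/
def sw (a b : A) : A := (1/2 : ℂ) • (b * a + ep b * a + b * ep a - ep b * ep a)

variable (A) in
/-- supercommutator -/
def Br : A →ₗ[ℂ] A →ₗ[ℂ] A :=
  LinearMap.mk₂ ℂ (fun a b => a * b - sw a b)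
    (by intro a b c; simp only [sw, map_add, add_mul, mul_add]; module)
    (by intro c a b; simp only [sw, map_smul, smul_mul_assoc, mul_smul_comm]; module)
    (by intro a b c; simp only [sw, map_add, add_mul, mul_add]; module)
    (by intro c a b; simp only [sw, map_smul, smul_mul_assoc, mul_smul_comm]; module)

variable (A) in
/-- super-anticommutator -/
def J : A →ₗ[ℂ] A →ₗ[ℂ] A :=
  LinearMap.mk₂ ℂ (fun a b => a * b + sw a b)
    (by intro a b c; simp only [sw, map_add, add_mul, mul_add]; module)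
    (by intro c a b; simp only [sw, map_smul, smul_mul_assoc, mul_smul_comm]; module)
    (by intro a b c; simp only [sw, map_add, add_mul, mul_add]; module)
    (by intro c a b; simp only [sw, map_smul, smul_mul_assoc, mul_smul_comm]; module)

theorem Br_apply (a b : A) : Br A a b = a * b - sw a b := rfl
theorem J_apply (a b : A) : J A a b = a * b + sw a b := rfl

theorem sw_hom {p q : Bool} {a b : A} (ha : a ∈ H A p) (hb : b ∈ H A q) :
    sw a b = sg p q • (b * a) := by
  rw [mem_H] at ha hb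
  cases p <;> cases q <;> simp [sw, ha, hb, sg] <;> module

theorem Br_hom {p q : Bool} {a b : A} (ha : a ∈ H A p) (hb : b ∈ H A q) :
    Br A a b = br p q a b := by
  rw [Br_apply, sw_hom ha hb]; rfl

theorem J_hom {p q : Bool} {a b : A} (ha : a ∈ H A p) (hb : b ∈ H A q) :
    J A a b = jr p q a b := by
  rw [J_apply, sw_hom ha hb]; rfl

theorem sw_H {p q : Bool} {a b : A} (ha : a ∈ H A p) (hb : b ∈ H A q) :
    sw a b ∈ H A (xor p q) := by
  rw [sw_hom ha hb, Bool.xor_comm]
  exact Submodule.smul_of_tower_mem _ _ (mul_H hb ha)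

theorem Br_H {p q : Bool} {a b : A} (ha : a ∈ H A p) (hb : b ∈ H A q) :
    Br A a b ∈ H A (xor p q) := Submodule.sub_mem _ (mul_H ha hb) (sw_H ha hb)

theorem J_H {p q : Bool} {a b : A} (ha : a ∈ H A p) (hb : b ∈ H A q) :
    J A a b ∈ H A (xor p q) := Submodule.add_mem _ (mul_H ha hb) (sw_H ha hb)

theorem ep_Br (a b : A) : ep (Br A a b) = Br A (ep a) (ep b) := by
  simp only [Br_apply, sw, map_sub, map_smul, map_add, map_mul, inv]

theorem Br_add_J (a b : A) : Br A a b + J A a b = (2 : ℂ) • (a * b) := by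
  rw [Br_apply, J_apply]; module

section ident
variable {p q r : Bool} {a b c : A} (ha : a ∈ H A p) (hb : b ∈ H A q) (hc : c ∈ H A r)
include ha hb hc

theorem Jac : Br A a (Br A b c) = Br A (Br A a b) c + sg p q • Br A b (Br A a c) := by
  rw [Br_hom ha (Br_H hb hc), Br_hom hb hc, Br_hom (Br_H ha hb) hc, Br_hom ha hb,
    Br_hom hb (Br_H ha hc), Br_hom ha hc, jacobi]

theorem J_Br : J A a (Br A b c) = Br A (J A a b) c - sg p q • J A b (Br A a c) := by
  rw [J_hom ha (Br_H hb hc), Br_hom hb hc, Br_hom (J_H ha hb) hc, J_hom ha hb,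
    J_hom hb (Br_H ha hc), Br_hom ha hc, jr_br]

theorem Br_J : Br A a (J A b c) = Br A (J A a b) c - sg p q • Br A b (J A a c) := by
  rw [Br_hom ha (J_H hb hc), J_hom hb hc, Br_hom (J_H ha hb) hc, J_hom ha hb,
    Br_hom hb (J_H ha hc), J_hom ha hc, br_jr]

theorem Br_J_der : Br A a (J A b c) = J A (Br A a b) c + sg p q • J A b (Br A a c) := by
  rw [Br_hom ha (J_H hb hc), J_hom hb hc, J_hom (Br_H ha hb) hc, Br_hom ha hb,
    J_hom hb (Br_H ha hc), Br_hom ha hc, br_jr_der]

end ident

theorem Br_swap {p q : Bool} {a b : A} (ha : a ∈ H A p) (hb : b ∈ H A q) :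
    Br A a b = -(sg p q • Br A b a) := by
  rw [Br_hom ha hb, Br_hom hb ha, br_swap]

theorem J_swap {p q : Bool} {a b : A} (ha : a ∈ H A p) (hb : b ∈ H A q) :
    J A a b = sg p q • J A b a := by
  rw [J_hom ha hb, J_hom hb ha, jr_swap]

/-! ### the lower central series -/

variable (A) in
/-- `Lc i` is `L_{i+1}` -/
def Lc : ℕ → Submodule ℂ A
  | 0 => ⊤
  | i + 1 => Submodule.map₂ (Br A) ⊤ (Lc i)

theorem Br_mem (a : A) {i : ℕ} {b : A} (hb : b ∈ Lc A i) : Br A a b ∈ Lc A (i + 1) :=
  Submodule.apply_mem_map₂ _ trivial hb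

theorem Lc_succ_le_all {i : ℕ} {M : Submodule ℂ A} (h : ∀ a, ∀ b ∈ Lc A i, Br A a b ∈ M) :
    Lc A (i + 1) ≤ M := by
  rw [Lc, Submodule.map₂_le]
  intro a _ b hb
  exact h a b hb

theorem Lc_anti (i : ℕ) : Lc A (i + 1) ≤ Lc A i := by
  induction i with
  | zero => exact le_top
  | succ i ih =>
    exact Lc_succ_le_all fun a b hb => Br_mem a (ih hb)

theorem Lc_anti' {i j : ℕ} (h : i ≤ j) : Lc A j ≤ Lc A i := antitone_nat_of_succ_le Lc_anti h

theorem ep_mem {i : ℕ} {a : A} (h : a ∈ Lc A i) : ep a ∈ Lc A i := by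
  have : ∀ i, Lc A i ≤ (Lc A i).comap (ep (A := A)).toLinearMap := by
    intro i
    induction i with
    | zero => intro a _; exact trivial
    | succ i ih =>
      refine Lc_succ_le_all fun a b hb => ?_
      change ep (Br A a b) ∈ Lc A (i + 1)
      rw [ep_Br]
      exact Br_mem _ (ih hb)
  exact this i h

theorem ev_mem {i : ℕ} {a : A} (h : a ∈ Lc A i) : ev a ∈ Lc A i :=
  Submodule.smul_mem _ _ (Submodule.add_mem _ h (ep_mem h))

theorem od_mem {i : ℕ} {a : A} (h : a ∈ Lc A i) : od a ∈ Lc A i :=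
  Submodule.smul_mem _ _ (Submodule.sub_mem _ h (ep_mem h))

/-- homogeneous induction on a layer -/
theorem Lc_ind {i : ℕ} {M : Submodule ℂ A} (h : ∀ p, ∀ b ∈ H A p, b ∈ Lc A i → b ∈ M) :
    Lc A i ≤ M := by
  intro b hb
  rw [← ev_add_od b]
  exact Submodule.add_mem _ (h _ _ (ev_H b) (ev_mem hb)) (h _ _ (od_H b) (od_mem hb))

theorem top_ind {M : Submodule ℂ A} (h : ∀ p, ∀ b ∈ H A p, b ∈ M) (a : A) : a ∈ M := by
  rw [← ev_add_od a]
  exact Submodule.add_mem _ (h _ _ (ev_H a)) (h _ _ (od_H a))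

theorem Lc_succ_le {i : ℕ} {M : Submodule ℂ A}
    (h : ∀ p q, ∀ a ∈ H A p, ∀ b ∈ H A q, b ∈ Lc A i → Br A a b ∈ M) :
    Lc A (i + 1) ≤ M := by
  refine Lc_succ_le_all fun a b hb => ?_
  have h1 : ∀ p, ∀ a ∈ H A p, Br A a b ∈ M := by
    intro p a ha
    have : Lc A i ≤ M.comap (Br A a) := Lc_ind fun q b hq hb => h p q a ha b hq hb
    exact this hb
  exact top_ind (M := M.comap ((Br A).flip b)) h1 a

theorem Lc_succ_succ_le {i : ℕ} {M : Submodule ℂ A}
    (h : ∀ p q r, ∀ a ∈ H A p, ∀ b ∈ H A q, ∀ c ∈ H A r, c ∈ Lc A i → Br A a (Br A b c) ∈ M) :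
    Lc A (i + 2) ≤ M := by
  refine Lc_succ_le (i := i + 1) fun p q a ha b hb hb' => ?_
  have : Lc A (i + 1) ≤ M.comap (Br A a) :=
    Lc_succ_le fun q r b hb c hc hc' => h p q r a ha b hb c hc hc'
  exact this hb'

/-- C1 -/
theorem Br_mem_add {i j : ℕ} {a b : A} (ha : a ∈ Lc A i) (hb : b ∈ Lc A j) :
    Br A a b ∈ Lc A (i + j + 1) := by
  induction i generalizing j a b with
  | zero => rw [Nat.zero_add]; exact Br_mem a hb
  | succ i ih =>
    have h1 : ∀ q, ∀ b ∈ H A q, b ∈ Lc A j → ∀ a ∈ Lc A (i + 1), Br A a b ∈ Lc A (i + 1 + j + 1) := by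
      intro q b hq hb a ha
      have : Lc A (i + 1) ≤ (Lc A (i + 1 + j + 1)).comap ((Br A).flip b) := by
        refine Lc_succ_le fun p r s hs t ht ht' => ?_
        change Br A (Br A s t) b ∈ Lc A (i + 1 + j + 1)
        have e := Jac hs ht hq
        have e' : Br A (Br A s t) b = Br A s (Br A t b) - sg p r • Br A t (Br A s b) := by
          rw [e]; abel
        rw [e']
        refine Submodule.sub_mem _ ?_ (Submodule.smul_of_tower_mem _ _ ?_)
        · have := Br_mem s (ih ht' hb)
          convert this using 2; ring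
        · have := ih ht' (Br_mem s hb)
          convert this using 2; ring
      exact this ha
    have : Lc A j ≤ (Lc A (i + 1 + j + 1)).comap (Br A a) := Lc_ind fun q b hq hb => h1 q b hq hb a ha
    exact this hb

end Basic

end Pool.Agent.SuperLCS
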