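import Mathlib

set_option autoImplicit false

/-! Multi-indexed sequences of nonnegative integers which eventually decrease in every direction
have rational generating functions with small denominators. -/

namespace Pool.Agent.SuperLCS

variable {σ : Type*} [Fintype σ] [DecidableEq σ]

theorem mono_aux {h : (σ →₀ ℕ) → ℤ} {c : σ → ℕ} {N : ℕ}
    (hN : ∀ z d, N ≤ d z → h (d + Finsupp.single z (c z)) ≤ h d) (n : ℕ) :
    ∀ (d d' : σ →₀ ℕ) (t : σ → ℕ), ∑ z, t z = n →
      (∀ z, d' z = d z + c z * t z ∧ (t z = 0 ∨ N ≤ d z)) → h d' ≤ h d := by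
  induction n with
  | zero =>
    intro d d' t ht hd
    have : d' = d := by
      ext z
      have : t z = 0 := (Finset.sum_eq_zero_iff.1 ht) z (Finset.mem_univ z)
      rw [(hd z).1, this]; simp
    rw [this]
  | succ n ih =>
    intro d d' t ht hd
    obtain ⟨z, hz⟩ : ∃ z, t z ≠ 0 := by
      by_contra hcon
      push Not at hcon
      rw [Finset.sum_eq_zero fun z _ => hcon z] at ht
      omega
    have hNz : N ≤ d z := (hd z).2.resolve_left hz
    refine le_trans (ih (d + Finsupp.single z (c z)) d' (Function.update t z (t z - 1)) ?_ ?_)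
      (hN z d hNz)
    · rw [Finset.sum_update_of_mem (Finset.mem_univ z)]
      have := Finset.add_sum_erase Finset.univ t (Finset.mem_univ z)
      rw [Finset.sdiff_singleton_eq_erase]
      omega
    · intro x
      by_cases hx : x = z
      · subst hx
        rw [Function.update_self, Finsupp.add_apply, Finsupp.single_eq_same]
        refine ⟨?_, Or.inr (by omega)⟩
        rw [(hd x).1]
        obtain ⟨k, hk⟩ : ∃ k, t x = k + 1 := ⟨t x - 1, by omega⟩
        rw [hk, Nat.add_sub_cancel]; ring
      · rw [Function.update_of_ne hx, Finsupp.add_apply, Finsupp.single_eq_of_ne hx, add_zero]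
        exact hd x

theorem uniform_one {h : (σ →₀ ℕ) → ℤ} (h0 : ∀ d, 0 ≤ h d) {c : σ → ℕ}
    (hc : ∀ z, c z = 1 ∨ c z = 2) {N : ℕ}
    (hN : ∀ z d, N ≤ d z → h (d + Finsupp.single z (c z)) ≤ h d) (z : σ) :
    ∃ M, ∀ d : σ →₀ ℕ, M ≤ d z → h (d + Finsupp.single z (c z)) = h d := by
  by_contra hcon
  push Not at hcon
  choose f hf1 hf2 using fun M => hcon (M + N)
  have hlt : ∀ k, h (f k + Finsupp.single z (c z)) < h (f k) := fun k =>
    lt_of_le_of_ne (hN z (f k) (by have := hf1 k; omega)) (hf2 k)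
  obtain ⟨g, hg⟩ := (wellQuasiOrdered_le (α := σ → ℕ × ℕ × ℕ × ℕ × ℕ)).exists_monotone_subseq
    (fun k x => (f k x, min (f k x) N, N - min (f k x) N, f k x % 2, 1 - f k x % 2))
  have key : ∀ k k', k ≤ k' → f (g k) z + c z ≤ f (g k') z →
      h (f (g k')) ≤ h (f (g k) + Finsupp.single z (c z)) := by
    intro k k' hk hz
    have h2 : ∀ x, f (g k) x ≤ f (g k') x ∧ min (f (g k) x) N = min (f (g k') x) N ∧
        f (g k) x % 2 = f (g k') x % 2 := by
      intro x
      have := hg k k' hk x
      simp only [Prod.mk_le_mk] at this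
      omega
    refine mono_aux hN _ _ _ (fun x => (f (g k') x - (f (g k) + Finsupp.single z (c z)) x) / c x)
      rfl ?_
    intro x
    obtain ⟨a1, a2, a3⟩ := h2 x
    have hbase : (f (g k) + Finsupp.single z (c z)) x ≤ f (g k') x ∧
        c x ∣ f (g k') x - (f (g k) + Finsupp.single z (c z)) x ∧
        (f (g k') x - (f (g k) + Finsupp.single z (c z)) x ≠ 0 → N ≤ f (g k) x) := by
      by_cases hx : x = z
      · subst hx
        rw [Finsupp.add_apply, Finsupp.single_eq_same]
        refine ⟨hz, ?_, fun _ => ?_⟩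
        · rcases hc x with e | e
          · rw [e]; exact one_dvd _
          · rw [e] at hz ⊢; omega
        · have := hf1 (g k); omega
      · rw [Finsupp.add_apply, Finsupp.single_eq_of_ne hx, add_zero]
        refine ⟨a1, ?_, fun h => ?_⟩
        · rcases hc x with e | e
          · rw [e]; exact one_dvd _
          · rw [e]; omega
        · omega
    obtain ⟨b1, b2, b3⟩ := hbase
    refine ⟨?_, ?_⟩
    · rw [Nat.mul_div_cancel' b2]; omega
    · by_cases h : f (g k') x - (f (g k) + Finsupp.single z (c z)) x = 0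
      · left; rw [h]; simp
      · right
        rw [Finsupp.add_apply]
        exact le_trans (b3 h) (Nat.le_add_right _ _)
  have hwf := WellFounded.min_mem (wellFounded_lt (α := ℕ))
    (Set.range fun k => (h (f (g k))).toNat) ⟨_, ⟨0, rfl⟩⟩
  obtain ⟨k, hk⟩ := hwf
  set k' := k + (f (g k) z + c z) with hk'
  have h1 : f (g k) z + c z ≤ f (g k') z := by
    have h1 := hf1 (g k')
    have h2 : k' ≤ g k' := g.strictMono.le_apply
    omega
  have h2 := key k k' (by omega) h1
  have h3 := hlt (g k)
  have h4 := WellFounded.not_lt_min (wellFounded_lt (α := ℕ))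
    (Set.range fun k => (h (f (g k))).toNat) (x := (h (f (g k'))).toNat) ⟨k', rfl⟩
  rw [← hk] at h4
  have h5 := h0 (f (g k'))
  have h6 := h0 (f (g k))
  simp only at h4
  omega

/-! ### power series -/

/-- eventual vanishing in one direction -/
def EvZero (z : σ) (f : MvPowerSeries σ ℤ) : Prop :=
  ∃ M, ∀ d : σ →₀ ℕ, M ≤ d z → MvPowerSeries.coeff d f = 0

/-- eventual periodicity in one direction -/
def EvPer (z : σ) (c : ℕ) (f : MvPowerSeries σ ℤ) : Prop :=
  ∃ M, ∀ d : σ →₀ ℕ, M ≤ d z →
    MvPowerSeries.coeff (d + Finsupp.single z c) f = MvPowerSeries.coeff d f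

omit [Fintype σ] [DecidableEq σ] in
theorem coeff_factor (f : MvPowerSeries σ ℤ) (y : σ) (c : ℕ) (d : σ →₀ ℕ) :
    MvPowerSeries.coeff d (f * (1 - MvPowerSeries.X y ^ c)) = MvPowerSeries.coeff d f -
      (if c ≤ d y then MvPowerSeries.coeff (d - Finsupp.single y c) f else 0) := by
  rw [mul_sub, mul_one, map_sub, MvPowerSeries.X_pow_eq, MvPowerSeries.coeff_mul_monomial]
  simp only [mul_one, Finsupp.single_le_iff]

omit [Fintype σ] in
theorem EvZero.mul {z : σ} {f : MvPowerSeries σ ℤ} (h : EvZero z f) (y : σ) (c : ℕ) :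
    EvZero z (f * (1 - MvPowerSeries.X y ^ c)) := by
  obtain ⟨M, hM⟩ := h
  refine ⟨M + c, fun d hd => ?_⟩
  rw [coeff_factor, hM d (by omega)]
  split_ifs with h
  · rw [hM, sub_zero]
    rw [Finsupp.tsub_apply]
    by_cases hz : z = y
    · subst hz; rw [Finsupp.single_eq_same]; omega
    · rw [Finsupp.single_eq_of_ne hz]; omega
  · rw [sub_zero]

omit [Fintype σ] in
theorem EvPer.mul {z : σ} {c : ℕ} {f : MvPowerSeries σ ℤ} (h : EvPer z c f) {y : σ} (hy : y ≠ z)
    (c' : ℕ) : EvPer z c (f * (1 - MvPowerSeries.X y ^ c')) := by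
  obtain ⟨M, hM⟩ := h
  refine ⟨M, fun d hd => ?_⟩
  rw [coeff_factor, coeff_factor, hM d hd]
  have e : (d + Finsupp.single z c) y = d y := by
    rw [Finsupp.add_apply, Finsupp.single_eq_of_ne hy, add_zero]
  rw [e]
  split_ifs with h
  · have e2 : d + Finsupp.single z c - Finsupp.single y c' =
        d - Finsupp.single y c' + Finsupp.single z c := by
      ext x
      simp only [Finsupp.tsub_apply, Finsupp.add_apply]
      by_cases hx : x = y
      · subst hx
        rw [Finsupp.single_eq_of_ne hy, Finsupp.single_eq_same]; omega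
      · rw [Finsupp.single_eq_of_ne (a := y) hx]; omega
    rw [e2, hM]
    rw [Finsupp.tsub_apply, Finsupp.single_eq_of_ne hy.symm]
    exact hd
  · rfl

omit [Fintype σ] [DecidableEq σ] in
theorem EvPer.factor {z : σ} {c : ℕ} {f : MvPowerSeries σ ℤ} (h : EvPer z c f) :
    EvZero z (f * (1 - MvPowerSeries.X z ^ c)) := by
  obtain ⟨M, hM⟩ := h
  refine ⟨M + c, fun d hd => ?_⟩
  rw [coeff_factor, if_pos (by omega)]
  have e : d - Finsupp.single z c + Finsupp.single z c = d := by
    rw [tsub_add_cancel_of_le]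
    rw [Finsupp.single_le_iff]; omega
  have := hM (d - Finsupp.single z c) (by
    rw [Finsupp.tsub_apply, Finsupp.single_eq_same]; omega)
  rw [e] at this
  rw [this, sub_self]

omit [Fintype σ] in
theorem EvPer.mul_prod {z : σ} {c0 : ℕ} (c : σ → ℕ) {f : MvPowerSeries σ ℤ} (h : EvPer z c0 f)
    (S : Finset σ) (hS : z ∉ S) : EvPer z c0 (f * ∏ y ∈ S, (1 - MvPowerSeries.X y ^ c y)) := by
  induction S using Finset.induction_on with
  | empty => simpa using h
  | insert y S hy ih =>
    rw [Finset.prod_insert hy, mul_comm (1 - MvPowerSeries.X y ^ c y), ← mul_assoc]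
    rw [Finset.mem_insert, not_or] at hS
    exact (ih hS.2).mul (Ne.symm hS.1) _

omit [Fintype σ] in
theorem EvZero.mul_prod {z : σ} (c : σ → ℕ) {f : MvPowerSeries σ ℤ} (h : EvZero z f)
    (S : Finset σ) : EvZero z (f * ∏ y ∈ S, (1 - MvPowerSeries.X y ^ c y)) := by
  induction S using Finset.induction_on with
  | empty => simpa using h
  | insert y S hy ih =>
    rw [Finset.prod_insert hy, mul_comm (1 - MvPowerSeries.X y ^ c y), ← mul_assoc]
    exact ih.mul _ _

theorem all_EvZero {c : σ → ℕ} {f : MvPowerSeries σ ℤ} (h : ∀ z, EvPer z (c z) f) (z : σ) :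
    EvZero z (f * ∏ y, (1 - MvPowerSeries.X y ^ c y)) := by
  rw [← Finset.mul_prod_erase Finset.univ _ (Finset.mem_univ z), mul_comm (1 - _), ← mul_assoc]
  exact ((h z).mul_prod c _ (Finset.notMem_erase z _)).factor

/-- every line in one direction is eventually constant -/
def EvC (y : σ) (f : MvPowerSeries σ ℤ) : Prop :=
  ∀ d : σ →₀ ℕ, ∃ M, ∀ b, M ≤ b → MvPowerSeries.coeff (d + Finsupp.single y (b + 1)) f =
    MvPowerSeries.coeff (d + Finsupp.single y b) f

/-- every line in one direction is eventually zero -/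
def EvZ (y : σ) (f : MvPowerSeries σ ℤ) : Prop :=
  ∀ d : σ →₀ ℕ, ∃ M, ∀ b, M ≤ b → MvPowerSeries.coeff (d + Finsupp.single y b) f = 0

omit [Fintype σ] in
theorem EvC.mul {y : σ} {f : MvPowerSeries σ ℤ} (h : EvC y f) {z : σ} (hz : z ≠ y) (c : ℕ) :
    EvC y (f * (1 - MvPowerSeries.X z ^ c)) := by
  intro d
  obtain ⟨M1, h1⟩ := h d
  obtain ⟨M2, h2⟩ := h (d - Finsupp.single z c)
  refine ⟨M1 + M2, fun b hb => ?_⟩
  have e : ∀ b, (d + Finsupp.single y b : σ →₀ ℕ) z = d z := by
    intro b
    rw [Finsupp.add_apply, Finsupp.single_eq_of_ne hz, add_zero]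
  rw [coeff_factor, coeff_factor, h1 b (by omega), e, e]
  split_ifs with h3
  · have e2 : ∀ b, d + Finsupp.single y b - Finsupp.single z c =
        d - Finsupp.single z c + Finsupp.single y b := by
      intro b
      ext x
      simp only [Finsupp.tsub_apply, Finsupp.add_apply]
      by_cases hx : x = z
      · subst hx
        rw [Finsupp.single_eq_of_ne hz, Finsupp.single_eq_same]; omega
      · rw [Finsupp.single_eq_of_ne (a := z) hx]; omega
    rw [e2, e2, h2 b (by omega)]
  · rfl

omit [Fintype σ] [DecidableEq σ] in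
theorem EvC.factor {y : σ} {f : MvPowerSeries σ ℤ} (h : EvC y f) :
    EvZ y (f * (1 - MvPowerSeries.X y)) := by
  intro d
  obtain ⟨M, hM⟩ := h d
  refine ⟨M + 1, fun b hb => ?_⟩
  have := coeff_factor f y 1 (d + Finsupp.single y b)
  rw [pow_one] at this
  rw [this, if_pos (by rw [Finsupp.add_apply, Finsupp.single_eq_same]; omega)]
  obtain ⟨b, rfl⟩ : ∃ b', b = b' + 1 := ⟨b - 1, by omega⟩
  have e : d + Finsupp.single y (b + 1) - Finsupp.single y 1 = d + Finsupp.single y b := by
    rw [Finsupp.single_add, ← add_assoc, add_tsub_cancel_right]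
  rw [e, hM b (by omega), sub_self]

omit [Fintype σ] in
theorem EvC.mul_prod {y : σ} {f : MvPowerSeries σ ℤ} (h : EvC y f) (c : σ → ℕ) (S : Finset σ)
    (hS : y ∉ S) : EvC y (f * ∏ x ∈ S, (1 - MvPowerSeries.X x ^ c x)) := by
  induction S using Finset.induction_on with
  | empty => simpa using h
  | insert x S hx ih =>
    rw [Finset.prod_insert hx, mul_comm (1 - MvPowerSeries.X x ^ c x), ← mul_assoc]
    rw [Finset.mem_insert, not_or] at hS
    exact (ih hS.2).mul (Ne.symm hS.1) _

omit [Fintype σ] [DecidableEq σ] in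
/-- division by `1 + X y` -/
theorem divide {y : σ} {f : MvPowerSeries σ ℤ} (h1 : EvZ y f)
    (h2 : ∀ z, EvZero z (f * (1 + MvPowerSeries.X y))) (z : σ) : EvZero z f := by
  obtain ⟨M, hM⟩ := h2 z
  refine ⟨M, fun d hd => ?_⟩
  obtain ⟨B, hB⟩ := h1 d
  have rel : ∀ b, MvPowerSeries.coeff (d + Finsupp.single y (b + 1)) f = 0 →
      MvPowerSeries.coeff (d + Finsupp.single y b) f = 0 := by
    intro b hb
    have h3 := hM (d + Finsupp.single y (b + 1)) (by
      rw [Finsupp.add_apply]; omega)
    rw [mul_add, mul_one, map_add, hb, zero_add, Finsupp.single_add, ← add_assoc,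
      MvPowerSeries.X, MvPowerSeries.coeff_add_mul_monomial, mul_one] at h3
    exact h3
  have hall : ∀ k, MvPowerSeries.coeff (d + Finsupp.single y (B - k)) f = 0 := by
    intro k
    induction k with
    | zero => exact hB _ (by omega)
    | succ k ih =>
      by_cases hk : k < B
      · refine rel _ ?_
        rwa [show B - (k + 1) + 1 = B - k by omega]
      · rwa [show B - (k + 1) = B - k by omega]
  have := hall B
  simpa using this

theorem replace_factors {c : σ → ℕ} (hc : ∀ z, c z = 1 ∨ c z = 2) {f : MvPowerSeries σ ℤ}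
    (h : ∀ z, EvPer z (c z) f) (h' : ∀ z, c z = 2 → EvC z f) (S : Finset σ) :
    ∀ z, EvZero z (f * ∏ x, (1 - MvPowerSeries.X x ^ (if x ∈ S then 1 else c x))) := by
  induction S using Finset.induction_on with
  | empty => simpa using all_EvZero h
  | insert y S hy ih =>
    rcases hc y with e | e
    · have : ∀ x, (if x ∈ insert y S then 1 else c x) = (if x ∈ S then 1 else c x) := by
        intro x
        by_cases hx : x = y
        · subst hx; simp [hy, e]
        · simp [Finset.mem_insert, hx]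
      simpa only [this] using ih
    · have hsplit : ∀ c' : σ → ℕ, f * ∏ x, (1 - MvPowerSeries.X x ^ c' x) =
          (f * ∏ x ∈ Finset.univ.erase y, (1 - MvPowerSeries.X x ^ c' x)) *
            (1 - MvPowerSeries.X y ^ c' y) := by
        intro c'
        rw [← Finset.mul_prod_erase Finset.univ _ (Finset.mem_univ y)]
        ring
      rw [hsplit] at ih ⊢
      have e1 : ∏ x ∈ Finset.univ.erase y,
          (1 - MvPowerSeries.X x ^ (if x ∈ insert y S then 1 else c x) : MvPowerSeries σ ℤ) =
          ∏ x ∈ Finset.univ.erase y, (1 - MvPowerSeries.X x ^ (if x ∈ S then 1 else c x)) := by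
        refine Finset.prod_congr rfl fun x hx => ?_
        have hxy := Finset.ne_of_mem_erase hx
        simp [Finset.mem_insert, hxy]
      rw [e1]
      rw [if_neg hy, e] at ih
      rw [if_pos (Finset.mem_insert_self _ _), pow_one]
      refine divide (y := y) (((h' y e).mul_prod _ _ (Finset.notMem_erase y _)).factor) ?_
      intro z
      have := ih z
      convert this using 1
      ring

theorem all_one {c : σ → ℕ} (hc : ∀ z, c z = 1 ∨ c z = 2) {f : MvPowerSeries σ ℤ}
    (h : ∀ z, EvPer z (c z) f) (h' : ∀ z, c z = 2 → EvC z f) (z : σ) :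
    EvZero z (f * ∏ x, (1 - MvPowerSeries.X x)) := by
  have := replace_factors hc h h' Finset.univ z
  simpa using this

/-- power series of bounded support are polynomials -/
theorem exists_poly {f : MvPowerSeries σ ℤ} (h : ∀ z, EvZero z f) :
    ∃ p : MvPolynomial σ ℤ, f = (p : MvPowerSeries σ ℤ) := by
  choose M hM using h
  let D : σ →₀ ℕ := Finsupp.equivFunOnFinite.symm M
  refine ⟨∑ d ∈ Finset.Iic D, MvPolynomial.monomial d (MvPowerSeries.coeff d f), ?_⟩
  ext d
  rw [MvPolynomial.coeff_coe, MvPolynomial.coeff_sum]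
  simp only [MvPolynomial.coeff_monomial]
  by_cases hd : d ≤ D
  · rw [Finset.sum_eq_single d]
    · simp
    · intro b _ hb; rw [if_neg hb]
    · intro hcon; exact absurd (Finset.mem_Iic.2 hd) hcon
  · have h0 : MvPowerSeries.coeff d f = 0 := by
      obtain ⟨z, hz⟩ : ∃ z, ¬ d z ≤ D z := by
        by_contra hcon
        push Not at hcon
        exact hd hcon
      exact hM z d (le_of_lt (not_le.1 hz))
    rw [h0]
    symm
    refine Finset.sum_eq_zero fun b hb => ?_
    rw [if_neg]
    rintro rfl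
    exact hd (Finset.mem_Iic.1 hb)

theorem final_comb {h : (σ →₀ ℕ) → ℤ} (h0 : ∀ d, 0 ≤ h d) {c : σ → ℕ}
    (hc : ∀ z, c z = 1 ∨ c z = 2)
    (hN : ∀ z, ∃ N, ∀ d : σ →₀ ℕ, N ≤ d z → h (d + Finsupp.single z (c z)) ≤ h d)
    (hC : ∀ z, c z = 2 → ∀ d, ∃ M, ∀ b, M ≤ b → h (d + Finsupp.single z (b + 1)) =
      h (d + Finsupp.single z b)) :
    ∀ F : MvPowerSeries σ ℤ, (∀ d, MvPowerSeries.coeff d F = h d) →
    ∃ p : MvPolynomial σ ℤ, F * ∏ s, (1 - MvPowerSeries.X s) = (p : MvPowerSeries σ ℤ) := by
  intro F hF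
  choose N hN' using hN
  have hN'' : ∀ z d, (∑ x, N x) ≤ d z → h (d + Finsupp.single z (c z)) ≤ h d := by
    intro z d hd
    refine hN' z d (le_trans ?_ hd)
    exact Finset.single_le_sum (f := N) (fun _ _ => Nat.zero_le _) (Finset.mem_univ z)
  refine exists_poly (all_one hc ?_ ?_)
  · intro z
    obtain ⟨M, hM⟩ := uniform_one h0 hc hN'' z
    exact ⟨M, fun d hd => by rw [hF, hF]; exact hM d hd⟩
  · intro z hz d
    obtain ⟨M, hM⟩ := hC z hz d
    exact ⟨M, fun b hb => by rw [hF, hF]; exact hM b hb⟩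

end Pool.Agent.SuperLCS
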