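import Pool.Agent.SuperLCS.Eff

set_option autoImplicit false

/-! Multiplication by an even element in one slot minus multiplication in the next slot is
nilpotent on iterated brackets modulo the next layer. -/

namespace Pool.Agent.SuperLCS

open Par

noncomputable section

variable {A : Type*} [Ring A] [Algebra ℂ A]

/-- symmetrised multiplication -/
def Lam (u : A) : A →ₗ[ℂ] A := (1/2 : ℂ) • (LinearMap.mulLeft ℂ u + LinearMap.mulRight ℂ u)

theorem Lam_apply (u a : A) : Lam u a = (1/2 : ℂ) • (u * a + a * u) := rfl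

/-- the difference operator on functions of two variables -/
def DD (u : A) (E : A → A → A) : A → A → A := fun a p => E (Lam u a) p - E a (Lam u p)

variable [Par A]

section
variable {u : A} (hu : ep u = u)
include hu

theorem Br_even (a : A) : Br A u a = u * a - a * u := by
  rw [Br_apply, sw, hu]; module

theorem ep_Lam (a : A) : ep (Lam u a) = Lam u (ep a) := by
  simp only [Lam_apply, map_smul, map_add, map_mul, hu]

theorem id1 (a b : A) : Br A (Lam u a) b - Br A a (Lam u b) = (1/2 : ℂ) • Br A u (J A a b) := by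
  rw [Br_even hu]
  simp only [Br_apply, J_apply, sw, ep_Lam hu]
  simp only [Lam_apply, mul_add, add_mul, smul_mul_assoc, mul_smul_comm, mul_assoc, sub_mul, mul_sub]
  module

theorem id2 (a b : A) : J A (Lam u a) b - J A a (Lam u b) = (1/2 : ℂ) • Br A u (Br A a b) := by
  rw [Br_even hu]
  simp only [Br_apply, J_apply, sw, ep_Lam hu]
  simp only [Lam_apply, mul_add, add_mul, smul_mul_assoc, mul_smul_comm, mul_assoc, sub_mul, mul_sub]
  module

theorem id3 (p q : A) : Lam u (Br A p q) - Br A (Lam u p) q = -((1/2 : ℂ) • J A p (Br A u q)) := by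
  rw [Br_even hu]
  simp only [Br_apply, J_apply, sw, ep_Lam hu, map_sub, map_mul, hu]
  simp only [Lam_apply, mul_add, add_mul, smul_mul_assoc, mul_smul_comm, mul_assoc, sub_mul, mul_sub]
  module

theorem id4 (p r : A) : Lam u (J A p r) - J A (Lam u p) r = -((1/2 : ℂ) • Br A p (Br A u r)) := by
  rw [Br_even hu]
  simp only [Br_apply, J_apply, sw, ep_Lam hu, map_sub, map_mul, hu]
  simp only [Lam_apply, mul_add, add_mul, smul_mul_assoc, mul_smul_comm, mul_assoc, sub_mul, mul_sub]
  module

variable {i : ℕ} {q : A} (hq : q ∈ Lc A i)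

theorem DD_E (q a p : A) : DD u (fun a p => Br A a (Br A p q)) a p =
    (1/2 : ℂ) • Br A u (J A a (Br A p q)) - (1/2 : ℂ) • Br A a (J A p (Br A u q)) := by
  have h1 := id1 hu a (Br A p q)
  have h3 := id3 hu p q
  have h3' : Lam u (Br A p q) = Br A (Lam u p) q + -((1/2 : ℂ) • J A p (Br A u q)) := by
    rw [← h3]; abel
  rw [h3', map_add, map_neg, map_smul] at h1
  simp only [DD]
  linear_combination (norm := module) h1

theorem DD_T1 (q a p : A) : DD u (fun a p => Br A u (J A a (Br A p q))) a p =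
    (1/2 : ℂ) • Br A u (Br A u (Br A a (Br A p q))) -
      (1/2 : ℂ) • Br A u (J A a (J A p (Br A u q))) := by
  have h1 := id2 hu a (Br A p q)
  have h3 := id3 hu p q
  have h3' : Lam u (Br A p q) = Br A (Lam u p) q + -((1/2 : ℂ) • J A p (Br A u q)) := by
    rw [← h3]; abel
  rw [h3', map_add, map_neg, map_smul] at h1
  have h2 := congrArg (Br A u) h1
  simp only [map_sub, map_add, map_neg, map_smul] at h2
  simp only [DD]
  linear_combination (norm := module) h2

theorem DD_T2 (r a p : A) : DD u (fun a p => Br A a (J A p r)) a p =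
    (1/2 : ℂ) • Br A u (J A a (J A p r)) - (1/2 : ℂ) • Br A a (Br A p (Br A u r)) := by
  have h1 := id1 hu a (J A p r)
  have h3 := id4 hu p r
  have h3' : Lam u (J A p r) = J A (Lam u p) r + -((1/2 : ℂ) • Br A p (Br A u r)) := by
    rw [← h3]; abel
  rw [h3', map_add, map_neg, map_smul] at h1
  simp only [DD]
  linear_combination (norm := module) h1

theorem DD_T3 (r a p : A) : DD u (fun a p => Br A u (J A a (J A p r))) a p =
    (1/2 : ℂ) • Br A u (Br A u (Br A a (J A p r))) -
      (1/2 : ℂ) • Br A u (J A a (Br A p (Br A u r))) := by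
  have h1 := id2 hu a (J A p r)
  have h3 := id4 hu p r
  have h3' : Lam u (J A p r) = J A (Lam u p) r + -((1/2 : ℂ) • Br A p (Br A u r)) := by
    rw [← h3]; abel
  rw [h3', map_add, map_neg, map_smul] at h1
  have h2 := congrArg (Br A u) h1
  simp only [map_sub, map_add, map_neg, map_smul] at h2
  simp only [DD]
  linear_combination (norm := module) h2

theorem DD2_E (q : A) : DD u (DD u (fun a p => Br A a (Br A p q))) = fun a p =>
    (1/4 : ℂ) • Br A u (Br A u (Br A a (Br A p q))) - (1/2 : ℂ) • Br A u (J A a (J A p (Br A u q)))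
      + (1/4 : ℂ) • Br A a (Br A p (Br A u (Br A u q))) := by
  funext a p
  have e : DD u (fun a p => Br A a (Br A p q)) = fun a p =>
    (1/2 : ℂ) • Br A u (J A a (Br A p q)) - (1/2 : ℂ) • Br A a (J A p (Br A u q)) := by
    funext a p; exact DD_E hu q a p
  rw [e]
  have h1 := DD_T1 hu q a p
  have h2 := DD_T2 hu (Br A u q) a p
  simp only [DD] at h1 h2 ⊢
  linear_combination (norm := module) (1/2 : ℂ) • h1 - (1/2 : ℂ) • h2

theorem DD3_E (q a p : A) : DD u (DD u (DD u (fun a p => Br A a (Br A p q)))) a p =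
    (1/4 : ℂ) • Br A u (Br A u (DD u (fun a p => Br A a (Br A p q)) a p)) -
    (1/4 : ℂ) • Br A u (Br A u (Br A a (J A p (Br A u q)))) +
    (1/4 : ℂ) • Br A u (J A a (Br A p (Br A u (Br A u q)))) +
    (1/4 : ℂ) • DD u (fun a p => Br A a (Br A p (Br A u (Br A u q)))) a p := by
  rw [DD2_E hu]
  have h3 := DD_T3 hu (Br A u q) a p
  simp only [DD, map_sub] at h3 ⊢
  linear_combination (norm := module) - (1/2 : ℂ) • h3

include hq in
theorem DD3_mem (a p : A) :
    DD u (DD u (DD u (fun a p => Br A a (Br A p q)))) a p ∈ Lc A (i + 3) := by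
  rw [DD3_E hu]
  have hr : Br A u q ∈ Lc A (i + 1) := Br_mem _ hq
  have hr2 : Br A u (Br A u q) ∈ Lc A (i + 2) := Br_mem _ hr
  refine Submodule.add_mem _ (Submodule.add_mem _ (Submodule.sub_mem _ ?_ ?_) ?_) ?_
  · refine Submodule.smul_mem _ _ (Lc_anti _ (Br_mem _ (Br_mem _ ?_)))
    exact Submodule.sub_mem _ (Br_mem _ (Br_mem _ hq)) (Br_mem _ (Br_mem _ hq))
  · exact Submodule.smul_mem _ _ (Br_mem _ (Br_mem _ (F2 _ _ _ _ hr)))
  · exact Submodule.smul_mem _ _ (F2 _ _ _ _ (Br_mem _ hr2))
  · refine Submodule.smul_mem _ _ (Lc_anti _ ?_)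
    exact Submodule.sub_mem _ (Br_mem _ (Br_mem _ hr2)) (Br_mem _ (Br_mem _ hr2))

theorem DD2_B (a b : A) : DD u (DD u (fun a b => Br A a b)) a b =
    (1/4 : ℂ) • Br A u (Br A u (Br A a b)) := by
  have e : DD u (fun a p => Br A a p) = fun a p => (1/2 : ℂ) • Br A u (J A a p) := by
    funext a p; exact id1 hu a p
  rw [e]
  have h := congrArg (Br A u) (id2 hu a b)
  simp only [map_sub, map_smul] at h
  simp only [DD]
  linear_combination (norm := module) (1/2 : ℂ) • h

theorem DD3_mem_last (a b : A) : DD u (DD u (DD u (fun a b => Br A a b))) a b ∈ Lc A 2 := by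
  have e : DD u (DD u (fun a b => Br A a b)) = fun a b => (1/4 : ℂ) • Br A u (Br A u (Br A a b)) := by
    funext a b; exact DD2_B hu a b
  rw [e]
  refine Lc_anti _ (Submodule.sub_mem _ ?_ ?_) <;>
  exact Submodule.smul_mem _ _ (Br_mem _ (Br_mem _ (Br_mem _ trivial)))

end

end

end Pool.Agent.SuperLCS
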