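import Pool.Agent.SuperLCS.Basic

set_option autoImplicit false

/-! The key property `[A,{A,L_i}] ≤ L_i`, and the ideal generated by `L_3`. -/

namespace Pool.Agent.SuperLCS

open Par


theorem comb_aux {M : Type*} [AddCommGroup M] [Module ℂ M] (p0 p1 p2 p3 : Bool) (X Y Z F : M)
    (r1 : X = sg p2 p3 • Y + (sg p1 p2 * sg p1 p3 * sg p2 p3) • Z)
    (r2 : -(sg p1 p0 • X) = sg p2 p3 • -(sg p1 p0 • Y) +
      (sg p0 p2 * sg p0 p3 * sg p2 p3) • -(sg p1 p3 • -(sg p1 p2 • F)))
    (r3 : -(sg p2 p0 • -(sg p2 p1 • X)) = sg p1 p3 • -(sg p2 p0 • -(sg p2 p3 • Z)) +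
      (sg p0 p1 * sg p0 p3 * sg p1 p3) • -(sg p2 p3 • F))
    (r4 : -(sg p3 p0 • -(sg p3 p1 • Y)) = sg p1 p2 • -(sg p3 p0 • Z) +
      (sg p0 p1 * sg p0 p2 * sg p1 p2) • F) : X = 0 := by
  have : (3 : ℂ) • X = 0 := by
    cases p0 <;> cases p1 <;> cases p2 <;> cases p3 <;> simp only [sg] at r1 r2 r3 r4 <;>
    first
    | linear_combination (norm := module) r1 + r2 + r3 + (2 : ℂ) • r4
    | linear_combination (norm := module) r1 + r2 + r3 - (2 : ℂ) • r4
    | linear_combination (norm := module) r1 - r2 + r3 + (2 : ℂ) • r4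
    | linear_combination (norm := module) r1 - r2 + r3 - (2 : ℂ) • r4
    | linear_combination (norm := module) r1 + r2 - r3 + (2 : ℂ) • r4
    | linear_combination (norm := module) r1 + r2 - r3 - (2 : ℂ) • r4
    | linear_combination (norm := module) r1 - r2 - r3 + (2 : ℂ) • r4
  simpa using this

/-- combination lemma with Koszul signs -/
theorem comb {M : Type*} [AddCommGroup M] [Module ℂ M] (G : Fin 4 → Fin 4 → Fin 4 → Fin 4 → M)
    (P : Fin 4 → Bool)
    (h12 : ∀ i j k l, G i j k l = -(sg (P i) (P j) • G j i k l))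
    (h23 : ∀ i j k l, G i j k l = -(sg (P j) (P k) • G i k j l))
    (hR : ∀ i j k l, G i j k l = sg (P k) (P l) • G i j l k +
      (sg (P j) (P k) * sg (P j) (P l) * sg (P k) (P l)) • G i l k j) :
    G 0 1 2 3 = 0 := by
  have r1 := hR 0 1 2 3
  have r2 := hR 1 0 2 3
  have r3 := hR 2 0 1 3
  have r4 := hR 3 0 1 2
  rw [h12 1 0 2 3, h12 1 0 3 2, h12 1 3 2 0, h23 3 1 2 0] at r2
  rw [h12 2 0 1 3, h23 0 2 1 3, h12 2 0 3 1, h23 0 2 3 1, h12 2 3 1 0] at r3
  rw [h12 3 0 1 2, h23 0 3 1 2, h12 3 0 2 1] at r4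
  exact comb_aux (P 0) (P 1) (P 2) (P 3) _ _ _ _ r1 r2 r3 r4

theorem sg_xor (p s t : Bool) : sg p (xor s t) = sg p s * sg p t := by
  cases p <;> cases s <;> cases t <;> simp [sg]

noncomputable section

variable {A : Type*} [Ring A] [Algebra ℂ A] [Par A]

theorem F2_step {i : ℕ} (ih : ∀ a p, ∀ r ∈ Lc A (i + 1), Br A a (J A p r) ∈ Lc A (i + 1))
    (e : Fin 4 → A) (P : Fin 4 → Bool) (he : ∀ i, e i ∈ H A (P i)) {q : Bool} {w : A}
    (hw : w ∈ H A q) (hw' : w ∈ Lc A i) :
    Br A (e 0) (J A (e 1) (Br A (e 2) (Br A (e 3) w))) ∈ Lc A (i + 2) := by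
  rw [← Submodule.Quotient.mk_eq_zero]
  refine comb (fun a b c d => Submodule.Quotient.mk (p := Lc A (i + 2))
    (Br A (e a) (J A (e b) (Br A (e c) (Br A (e d) w))))) P ?_ ?_ ?_
  · intro a b c d
    rw [← Submodule.Quotient.mk_smul, ← Submodule.Quotient.mk_neg, Submodule.Quotient.eq]
    have hr := Br_H (he c) (Br_H (he d) hw)
    have hr' : Br A (e c) (Br A (e d) w) ∈ Lc A (i + 2) := Br_mem _ (Br_mem _ hw')
    have h1 := Br_J (he a) (he b) hr
    have : Br A (e a) (J A (e b) (Br A (e c) (Br A (e d) w))) -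
      -(sg (P a) (P b) • Br A (e b) (J A (e a) (Br A (e c) (Br A (e d) w)))) =
      Br A (J A (e a) (e b)) (Br A (e c) (Br A (e d) w)) := by
      rw [h1]; abel
    rw [this]
    exact Lc_anti _ (Br_mem _ hr')
  · intro a b c d
    rw [← Submodule.Quotient.mk_smul, ← Submodule.Quotient.mk_neg, Submodule.Quotient.eq]
    have hz := Br_H (he d) hw
    have hz' : Br A (e d) w ∈ Lc A (i + 1) := Br_mem _ hw'
    have h1 := J_Br (he b) (he c) hz
    have : Br A (e a) (J A (e b) (Br A (e c) (Br A (e d) w))) -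
      -(sg (P b) (P c) • Br A (e a) (J A (e c) (Br A (e b) (Br A (e d) w)))) =
      Br A (e a) (Br A (J A (e b) (e c)) (Br A (e d) w)) := by
      rw [h1, map_sub, map_zsmul]; abel
    rw [this]
    exact Lc_anti _ (Br_mem _ (Br_mem _ hz'))
  · intro a b c d
    rw [← Submodule.Quotient.mk_smul, ← Submodule.Quotient.mk_smul, ← Submodule.Quotient.mk_add,
      Submodule.Quotient.eq]
    have h1 := Jac (he c) (he d) hw
    have h2 := J_Br (he b) (Br_H (he c) (he d)) hw
    have h3 := Br_J_der (he c) (he d) (Br_H (he b) hw)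
    have h3' : J A (Br A (e c) (e d)) (Br A (e b) w) = Br A (e c) (J A (e d) (Br A (e b) w)) -
        sg (P c) (P d) • J A (e d) (Br A (e c) (Br A (e b) w)) := by
      rw [h3]; abel
    rw [h3', sg_xor] at h2
    have : Br A (e a) (J A (e b) (Br A (e c) (Br A (e d) w))) -
      (sg (P c) (P d) • Br A (e a) (J A (e b) (Br A (e d) (Br A (e c) w))) +
      (sg (P b) (P c) * sg (P b) (P d) * sg (P c) (P d)) •
        Br A (e a) (J A (e d) (Br A (e c) (Br A (e b) w)))) =
      Br A (e a) (Br A (J A (e b) (Br A (e c) (e d))) w) -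
        (sg (P b) (P c) * sg (P b) (P d)) •
          Br A (e a) (Br A (e c) (J A (e d) (Br A (e b) w))) := by
      rw [h1, map_add, h2, map_add, map_sub, map_zsmul, map_zsmul, map_sub, map_zsmul, map_zsmul]
      module
    rw [this]
    exact Submodule.sub_mem _ (Br_mem _ (Br_mem _ hw'))
      (Submodule.smul_of_tower_mem _ _ (Br_mem _ (ih _ _ _ (Br_mem _ hw'))))

/-- C2 -/
theorem F2 (i : ℕ) : ∀ a p, ∀ r ∈ Lc A i, Br A a (J A p r) ∈ Lc A i := by
  induction i using Nat.strong_induction_on with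
  | _ i IH =>
    match i, IH with
    | 0, _ => intro a p r _; exact trivial
    | 1, _ => intro a p r _; exact Br_mem _ trivial
    | i + 2, IH =>
      intro a p r hr
      have ih := IH (i + 1) (by omega)
      have h1 : ∀ q1 q2, ∀ a ∈ H A q1, ∀ p ∈ H A q2, Lc A (i + 2) ≤
          (Lc A (i + 2)).comap ((Br A a).comp (J A p)) := by
        intro q1 q2 a ha p hp
        refine Lc_succ_succ_le fun q3 q4 q5 s hs t ht w hw hw' => ?_
        have := F2_step ih ![a, p, s, t] ![q1, q2, q3, q4] (by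
          intro i; fin_cases i <;> simpa) hw hw'
        simpa using this
      have h2 : ∀ q1, ∀ a ∈ H A q1, Br A a (J A p r) ∈ Lc A (i + 2) := by
        intro q1 a ha
        exact top_ind (M := (Lc A (i + 2)).comap ((Br A a).comp ((J A).flip r)))
          (fun q2 p hp => h1 q1 q2 a ha p hp hr) p
      exact top_ind (M := (Lc A (i + 2)).comap ((Br A).flip (J A p r)))
          (fun q1 a ha => h2 q1 a ha) a

/-! ### the ideal generated by `L_3` -/

variable (A) in
/-- the (left) ideal generated by `L_3` -/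
def M3 : Submodule ℂ A := ⊤ * Lc A 2

theorem mul_mem_M3 (x : A) {r : A} (hr : r ∈ Lc A 2) : x * r ∈ M3 A :=
  Submodule.mul_mem_mul trivial hr

theorem Lc2_le_M3 : Lc A 2 ≤ M3 A := by
  intro r hr
  simpa using mul_mem_M3 1 hr

theorem M3_le {M : Submodule ℂ A} (h : ∀ x, ∀ r ∈ Lc A 2, x * r ∈ M) : M3 A ≤ M :=
  Submodule.mul_le.2 fun x _ r hr => h x r hr

theorem M3_le_hom {M : Submodule ℂ A}
    (h : ∀ p q, ∀ x ∈ H A p, ∀ r ∈ H A q, r ∈ Lc A 2 → x * r ∈ M) : M3 A ≤ M := by
  refine M3_le fun x r hr => ?_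
  have h1 : ∀ p, ∀ x ∈ H A p, x * r ∈ M := by
    intro p x hx
    have : Lc A 2 ≤ M.comap (LinearMap.mulLeft ℂ x) := Lc_ind fun q b hq hb => h p q x hx b hq hb
    exact this hr
  exact top_ind (M := M.comap (LinearMap.mulRight ℂ r)) h1 x

theorem M3_mul_left (x : A) {m : A} (hm : m ∈ M3 A) : x * m ∈ M3 A := by
  have : M3 A ≤ (M3 A).comap (LinearMap.mulLeft ℂ x) := by
    refine M3_le fun y r hr => ?_
    change x * (y * r) ∈ M3 A
    rw [← mul_assoc]
    exact mul_mem_M3 _ hr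
  exact this hm

theorem M3_mul_right (x : A) {m : A} (hm : m ∈ M3 A) : m * x ∈ M3 A := by
  have h1 : ∀ p, ∀ x ∈ H A p, ∀ m ∈ M3 A, m * x ∈ M3 A := by
    intro p x hx m hm
    have : M3 A ≤ (M3 A).comap (LinearMap.mulRight ℂ x) := by
      refine M3_le_hom fun q r y hy r hr hr' => ?_
      change y * r * x ∈ M3 A
      rw [mul_assoc]
      refine M3_mul_left _ ?_
      rename_i r0
      have e : r * x = Br A r x + sg r0 p • (x * r) := by
        rw [Br_hom hr hx, br]; abel
      rw [e]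
      refine Submodule.add_mem _ (Lc2_le_M3 (Lc_anti _ (Br_mem_add (j := 0) hr' trivial))) ?_
      exact Submodule.smul_of_tower_mem _ _ (mul_mem_M3 _ hr')
    exact this hm
  exact top_ind (M := (M3 A).comap (LinearMap.mulLeft ℂ m)) (fun p x hx => h1 p x hx m hm) x

theorem ep_M3 {m : A} (hm : m ∈ M3 A) : ep m ∈ M3 A := by
  have : M3 A ≤ (M3 A).comap (ep (A := A)).toLinearMap := by
    refine M3_le fun y r hr => ?_
    change ep (y * r) ∈ M3 A
    rw [map_mul]
    exact mul_mem_M3 _ (ep_mem hr)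
  exact this hm

/-- `[A, M3] ≤ L_3` -/
theorem Br_M3 (a : A) {m : A} (hm : m ∈ M3 A) : Br A a m ∈ Lc A 2 := by
  have : M3 A ≤ (Lc A 2).comap (Br A a) := by
    refine M3_le fun x r hr => ?_
    change Br A a (x * r) ∈ Lc A 2
    have e : x * r = (1/2 : ℂ) • (Br A x r + J A x r) := by
      rw [Br_add_J]; module
    rw [e, map_smul, map_add]
    refine Submodule.smul_mem _ _ (Submodule.add_mem _ ?_ (F2 2 _ _ _ hr))
    exact Lc_anti' (by omega) (Br_mem _ (Br_mem _ hr))
  exact this hm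

/-- `[M3, L_j] ≤ L_{j+2}` -/
theorem M3_Br {m : A} (hm : m ∈ M3 A) {j : ℕ} {b : A} (hb : b ∈ Lc A j) :
    Br A m b ∈ Lc A (j + 2) := by
  have key : ∀ p, ∀ m ∈ H A p, m ∈ M3 A → ∀ j, Lc A j ≤ (Lc A (j + 2)).comap (Br A m) := by
    intro p m hp hm j
    induction j with
    | zero =>
      refine Lc_ind fun q b hb _ => ?_
      change Br A m b ∈ Lc A (0 + 2)
      rw [Br_swap hp hb]
      exact Submodule.neg_mem _ (Submodule.smul_of_tower_mem _ _ (Br_M3 _ hm))
    | succ j ih =>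
      refine Lc_succ_le fun q r s hs t ht ht' => ?_
      change Br A m (Br A s t) ∈ Lc A (j + 1 + 2)
      rw [Jac hp hs ht]
      refine Submodule.add_mem _ ?_ (Submodule.smul_of_tower_mem _ _ ?_)
      · have h1 : Br A m s ∈ Lc A 2 := by
          rw [Br_swap hp hs]
          exact Submodule.neg_mem _ (Submodule.smul_of_tower_mem _ _ (Br_M3 _ hm))
        have := Br_mem_add h1 ht'
        convert this using 2; ring
      · exact Br_mem _ (ih ht')
  have h2 : Br A (ev m) b ∈ Lc A (j + 2) :=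
    key _ _ (ev_H m) (Submodule.smul_mem _ _ (Submodule.add_mem _ hm (ep_M3 hm))) j hb
  have h3 : Br A (od m) b ∈ Lc A (j + 2) :=
    key _ _ (od_H m) (Submodule.smul_mem _ _ (Submodule.sub_mem _ hm (ep_M3 hm))) j hb
  have := Submodule.add_mem _ h2 h3
  rwa [← LinearMap.add_apply, ← map_add, ev_add_od] at this

end

end Pool.Agent.SuperLCS
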