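import Pool.Agent.SuperLCS.Letter

set_option autoImplicit false

/-! Decomposition of words with respect to an even letter. -/

namespace Pool.Agent.SuperLCS

open Par

noncomputable section

section gen
variable {A : Type*} [Ring A] [Algebra ℂ A] [Par A] {u : A} (hu : ep u = u)
include hu

/-- commutator with an even element -/
theorem Br_even_mul (a b : A) : Br A u (a * b) = Br A u a * b + a * Br A u b := by
  rw [Br_even hu, Br_even hu, Br_even hu]; noncomm_ring

theorem Br_Br_mul_M3 (a b : A) : Br A u a * Br A u b ∈ M3 A := by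
  have e : Br A u a * Br A u b = (1/2 : ℂ) • (Br A u (Br A u (a * b)) -
      Br A u (Br A u a) * b - a * Br A u (Br A u b)) := by
    rw [Br_even_mul hu a b, map_add, Br_even_mul hu, Br_even_mul hu]
    module
  rw [e]
  have h : ∀ x : A, Br A u (Br A u x) ∈ M3 A := fun x => Lc2_le_M3 (Br_mem _ (Br_mem _ trivial))
  exact Submodule.smul_mem _ _ (Submodule.sub_mem _ (Submodule.sub_mem _ (h _)
    (M3_mul_right _ (h _))) (M3_mul_left _ (h _)))

theorem mul_Lam (v a : A) : v * Lam u a = Lam u (v * a) - (1/2 : ℂ) • (Br A u v * a) := by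
  rw [Br_even hu]
  simp only [Lam_apply, mul_add, sub_mul, mul_smul_comm, mul_assoc]
  module

theorem Br_mul_iter (v a : A) (s : ℕ) :
    Br A u v * (Lam u)^[s] a - (Lam u)^[s] (Br A u v * a) ∈ M3 A := by
  induction s with
  | zero => simp
  | succ s ih =>
    rw [Function.iterate_succ_apply', Function.iterate_succ_apply', mul_Lam hu]
    have h1 := Lam_M3 u ih
    rw [map_sub] at h1
    have h2 : (1/2 : ℂ) • (Br A u (Br A u v) * (Lam u)^[s] a) ∈ M3 A :=
      Submodule.smul_mem _ _ (M3_mul_right _ (Lc2_le_M3 (Br_mem _ (Br_mem _ trivial))))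
    have := Submodule.sub_mem _ h1 h2
    convert this using 1
    abel

theorem mul_iter (v a : A) (s : ℕ) :
    v * (Lam u)^[s + 1] a - ((Lam u)^[s + 1] (v * a) -
      ((s + 1 : ℂ) / 2) • (Lam u)^[s] (Br A u v * a)) ∈ M3 A := by
  induction s with
  | zero =>
    have : v * (Lam u)^[0 + 1] a - ((Lam u)^[0 + 1] (v * a) -
      (((0 : ℕ) + 1 : ℂ) / 2) • (Lam u)^[0] (Br A u v * a)) = 0 := by
      simp only [Nat.zero_add, Function.iterate_one, Function.iterate_zero, id_eq, mul_Lam hu]
      push_cast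
      module
    rw [this]; exact Submodule.zero_mem _
  | succ s ih =>
    rw [Function.iterate_succ_apply' (⇑(Lam u)) (s + 1) a, mul_Lam hu,
      Function.iterate_succ_apply' (⇑(Lam u)) (s + 1) (v * a)]
    have h1 := Lam_M3 u ih
    rw [map_sub, map_sub, map_smul, ← Function.iterate_succ_apply' (⇑(Lam u)) s (Br A u v * a)] at h1
    have h2 := Submodule.smul_mem _ (1/2 : ℂ) (Br_mul_iter hu v a (s + 1))
    have := Submodule.sub_mem _ h1 h2
    convert this using 1
    push_cast
    module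

omit hu in
theorem iter_M3 {x : A} (hx : x ∈ M3 A) (s : ℕ) : (Lam u)^[s] x ∈ M3 A := by
  induction s with
  | zero => exact hx
  | succ s ih => rw [Function.iterate_succ_apply']; exact Lam_M3 u ih

theorem Br_Lam (a : A) : Br A u (Lam u a) = Lam u (Br A u a) := by
  rw [Br_even hu, Br_even hu]
  simp only [Lam_apply, mul_add, add_mul, sub_mul, mul_sub, mul_smul_comm, smul_mul_assoc, mul_assoc]
  module

theorem Br_iter (a : A) (s : ℕ) : Br A u ((Lam u)^[s] a) = (Lam u)^[s] (Br A u a) := by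
  induction s with
  | zero => rfl
  | succ s ih => rw [Function.iterate_succ_apply', Function.iterate_succ_apply', Br_Lam hu, ih]

theorem left_mul (a : A) : u * a = Lam u a + (1/2 : ℂ) • Br A u a := by
  rw [Br_even hu, Lam_apply]; module

omit hu [Par A] in
theorem iter_add (a b : A) (s : ℕ) : (Lam u)^[s] (a + b) = (Lam u)^[s] a + (Lam u)^[s] b := by
  induction s with
  | zero => rfl
  | succ s ih => simp only [Function.iterate_succ_apply', ih, map_add]

omit hu [Par A] in
theorem iter_sub (a b : A) (s : ℕ) : (Lam u)^[s] (a - b) = (Lam u)^[s] a - (Lam u)^[s] b := by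
  induction s with
  | zero => rfl
  | succ s ih => simp only [Function.iterate_succ_apply', ih, map_sub]

end gen

variable {m n : ℕ} (z : Sg m n)

/-- polynomials without the letter -/
def V0 : Subalgebra ℂ (FA m n) := Algebra.adjoin ℂ {a | ∃ x, x ≠ z ∧ a = gi x}

theorem X_V0 {g : FA m n} (hg : g ∈ V0 z) : Xz z g = 0 := by
  induction hg using Algebra.adjoin_induction with
  | mem a ha =>
    obtain ⟨x, hx, rfl⟩ := ha
    exact Xz_gi_ne hx
  | algebraMap r => exact der_algebraMap _ _ r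
  | add a b _ _ ha hb => rw [map_add, ha, hb, add_zero]
  | mul a b _ _ ha hb => rw [Xz_mul, ha, hb, zero_mul, mul_zero, add_zero]

/-- the decomposition space -/
def RD (D : ℕ) : Submodule ℂ (FA m n) :=
  Submodule.span ℂ ({x | ∃ g ∈ V0 z, x = (Lam (uz z))^[D] g} ∪
    {x | ∃ v1 ∈ V0 z, ∃ v2 ∈ V0 z, ∃ t : ℕ, D ≤ t + 1 ∧
      x = (Lam (uz z))^[t] (Br _ (uz z) v1 * v2)}) ⊔ M3 _

theorem RD_V0 {D : ℕ} {g : FA m n} (hg : g ∈ V0 z) : (Lam (uz z))^[D] g ∈ RD z D :=
  Submodule.mem_sup_left (Submodule.subset_span (Or.inl ⟨g, hg, rfl⟩))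

theorem RD_V1 {D t : ℕ} {v1 v2 : FA m n} (h1 : v1 ∈ V0 z) (h2 : v2 ∈ V0 z) (ht : D ≤ t + 1) :
    (Lam (uz z))^[t] (Br _ (uz z) v1 * v2) ∈ RD z D :=
  Submodule.mem_sup_left (Submodule.subset_span (Or.inr ⟨v1, h1, v2, h2, t, ht, rfl⟩))

theorem RD_M3 {D : ℕ} {a : FA m n} (h : a ∈ M3 (FA m n)) : a ∈ RD z D :=
  Submodule.mem_sup_right h

theorem RD_mul_ne {x : Sg m n} (hx : x ≠ z) {D : ℕ} {a : FA m n} (ha : a ∈ RD z D) :
    gi x * a ∈ RD z D := by
  have hxV : gi x ∈ V0 z := Algebra.subset_adjoin ⟨x, hx, rfl⟩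
  have key : RD z D ≤ (RD z D).comap (LinearMap.mulLeft ℂ (gi x)) := by
    refine sup_le (Submodule.span_le.2 ?_) ?_
    · rintro _ (⟨g, hg, rfl⟩ | ⟨v1, h1, v2, h2, t, ht, rfl⟩)
      · change gi x * (Lam (uz z))^[D] g ∈ RD z D
        cases D with
        | zero => exact RD_V0 z (D := 0) (mul_mem hxV hg)
        | succ D =>
          have h := mul_iter (ep_uz z) (gi x) g D
          have h' := Submodule.add_mem _ (RD_M3 z (D := D + 1) h) (Submodule.sub_mem _
            (RD_V0 z (D := D + 1) (mul_mem hxV hg))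
            (Submodule.smul_mem _ ((D + 1 : ℂ) / 2) (RD_V1 z hxV hg (le_refl (D + 1)))))
          convert h' using 1
          abel
      · change gi x * (Lam (uz z))^[t] (Br _ (uz z) v1 * v2) ∈ RD z D
        have e : gi x * (Br _ (uz z) v1 * v2) = Br _ (uz z) (gi x * v1) * v2 -
            Br _ (uz z) (gi x) * (v1 * v2) := by
          rw [Br_even_mul (ep_uz z)]; noncomm_ring
        have h3 : (Lam (uz z))^[t] (gi x * (Br _ (uz z) v1 * v2)) ∈ RD z D := by
          rw [e, iter_sub]
          exact Submodule.sub_mem _ (RD_V1 z (mul_mem hxV h1) h2 ht)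
            (RD_V1 z hxV (mul_mem h1 h2) ht)
        cases t with
        | zero => exact h3
        | succ t =>
          have h := mul_iter (ep_uz z) (gi x) (Br _ (uz z) v1 * v2) t
          have h4 : Br _ (uz z) (gi x) * (Br _ (uz z) v1 * v2) ∈ M3 (FA m n) := by
            rw [← mul_assoc]
            exact M3_mul_right _ (Br_Br_mul_M3 (ep_uz z) _ _)
          have h' := Submodule.add_mem _ (RD_M3 z (D := D) h) (Submodule.sub_mem _ h3
            (Submodule.smul_mem _ ((t + 1 : ℂ) / 2) (RD_M3 z (D := D) (iter_M3 (u := uz z) h4 t))))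
          convert h' using 1
          abel
    · intro a ha
      exact RD_M3 z (M3_mul_left _ ha)
  exact key ha

theorem RD_mul_self {D : ℕ} {a : FA m n} (ha : a ∈ RD z D) :
    uz z * a ∈ RD z (D + 1) := by
  have key : RD z D ≤ (RD z (D + 1)).comap (LinearMap.mulLeft ℂ (uz z)) := by
    refine sup_le (Submodule.span_le.2 ?_) ?_
    · rintro _ (⟨g, hg, rfl⟩ | ⟨v1, h1, v2, h2, t, ht, rfl⟩)
      · change uz z * (Lam (uz z))^[D] g ∈ RD z (D + 1)
        rw [left_mul (ep_uz z), Br_iter (ep_uz z), ← Function.iterate_succ_apply' (⇑(Lam (uz z)))]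
        refine Submodule.add_mem _ (RD_V0 z hg) (Submodule.smul_mem _ _ ?_)
        have := RD_V1 z (D := D + 1) (t := D) hg (one_mem (V0 z)) le_rfl
        rwa [mul_one] at this
      · change uz z * (Lam (uz z))^[t] (Br _ (uz z) v1 * v2) ∈ RD z (D + 1)
        rw [left_mul (ep_uz z), Br_iter (ep_uz z), ← Function.iterate_succ_apply' (⇑(Lam (uz z)))]
        refine Submodule.add_mem _ (RD_V1 z h1 h2 (by omega)) (Submodule.smul_mem _ _ ?_)
        refine RD_M3 z (iter_M3 ?_ t)
        rw [Br_even_mul (ep_uz z)]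
        exact Submodule.add_mem _ (M3_mul_right _ (Lc2_le_M3 (Br_mem _ (Br_mem _ trivial))))
          (Br_Br_mul_M3 (ep_uz z) _ _)
    · intro a ha
      exact RD_M3 z (M3_mul_left _ ha)
  exact key ha

variable {z} in
theorem word_RD (hz : z.isRight = false) (w : FreeMonoid (Sg m n)) : word w ∈ RD z (deg w z) := by
  have huz : uz z = gi z := by simp [uz, cz, hz]
  induction w using FreeMonoid.inductionOn' with
  | one =>
    rw [word_one, deg_one]
    exact RD_V0 z (D := 0) (one_mem (V0 z))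
  | of_mul x w ih =>
    rw [word_mul, word_of, deg_mul, deg_of, Finsupp.add_apply]
    by_cases h : x = z
    · subst h
      rw [Finsupp.single_eq_same, add_comm]
      have := RD_mul_self x ih
      rwa [huz] at this
    · rw [Finsupp.single_eq_of_ne (Ne.symm h), zero_add]
      exact RD_mul_ne z h ih

theorem Good_V0 {g : FA m n} (hg : g ∈ V0 z) : Good (uz z) (Xz z) g 0 := by
  rw [Good, X_V0 z hg]
  simp

variable {z} in
theorem Good_V1 (hz : z.isRight = false) {v1 v2 : FA m n} (h1 : v1 ∈ V0 z) (h2 : v2 ∈ V0 z) :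
    Good (uz z) (Xz z) (Br _ (uz z) v1 * v2) 2 := by
  have hc : cz z = 1 := by simp [cz, hz]
  have e : Xz z (Br _ (uz z) v1 * v2) - ((2 : ℕ) : ℂ) • Lam (uz z) (Br _ (uz z) v1 * v2) =
      Br _ (uz z) v1 * Br _ (uz z) v2 := by
    have hu := Xz_uz z
    rw [hc, Nat.cast_one, one_smul] at hu
    rw [Xz_mul, X_V0 z h2, Xz_Br, X_V0 z h1, hu, map_zero, mul_zero, add_zero, add_zero,
      Br_even (u := uz z * uz z) (by rw [map_mul, ep_uz]), Br_even (ep_uz z), Br_even (ep_uz z),
      Lam_apply]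
    simp only [sub_mul, mul_sub, mul_assoc]
    push_cast
    module
  rw [Good, e]
  exact Br_Br_mul_M3 (ep_uz z) _ _

variable {z} in
theorem word_DecS_even (hz : z.isRight = false) (w : FreeMonoid (Sg m n)) :
    word w ∈ DecS (uz z) (Xz z) (deg w z) := by
  refine (sup_le (le_trans (Submodule.span_le.2 ?_) le_sup_left) le_sup_right :
    RD z (deg w z) ≤ DecS (uz z) (Xz z) (deg w z)) (word_RD hz w)
  rintro _ (⟨g, hg, rfl⟩ | ⟨v1, h1, v2, h2, t, ht, rfl⟩)
  · exact Submodule.subset_span ⟨g, _, 0, Good_V0 z hg, by omega, rfl⟩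
  · exact Submodule.subset_span ⟨_, t, 2, Good_V1 hz h1 h2, by omega, rfl⟩

end

end Pool.Agent.SuperLCS
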