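import Pool.Agent.SuperLCS.SpanFS

set_option autoImplicit false

/-! The free superalgebra: parity, words, degrees, derivations. -/

namespace Pool.Agent.SuperLCS

open Par

/-- generators -/
abbrev Sg (m n : ℕ) := Fin m ⊕ Fin n

/-- the free algebra -/
abbrev FA (m n : ℕ) := FreeAlgebra ℂ (Sg m n)

noncomputable section

variable {m n : ℕ}

/-- generator -/
abbrev gi (x : Sg m n) : FA m n := FreeAlgebra.ι ℂ x

instance : Par (FA m n) where
  ep := FreeAlgebra.lift ℂ (fun x => sgn x.isRight • gi x)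
  inv := by
    intro a
    have : (FreeAlgebra.lift ℂ (fun x : Sg m n => sgn x.isRight • gi x)).comp
        (FreeAlgebra.lift ℂ (fun x : Sg m n => sgn x.isRight • gi x)) = AlgHom.id ℂ (FA m n) := by
      apply FreeAlgebra.hom_ext
      funext x
      cases x <;> simp
    exact DFunLike.congr_fun this a

theorem ep_gi (x : Sg m n) : ep (gi x) = sgn x.isRight • gi x :=
  FreeAlgebra.lift_ι_apply _ _

theorem gi_H (x : Sg m n) : gi x ∈ H (FA m n) x.isRight := mem_H.2 (ep_gi x)

/-! ### twisted derivations -/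

/-- the algebra map to matrices carrying a twisted derivation -/
def derHom (φ : FA m n →ₐ[ℂ] FA m n) (v : Sg m n → FA m n) :
    FA m n →ₐ[ℂ] Matrix (Fin 2) (Fin 2) (FA m n) :=
  FreeAlgebra.lift ℂ fun x => !![φ (gi x), v x; 0, gi x]

theorem derHom_gi (φ : FA m n →ₐ[ℂ] FA m n) (v : Sg m n → FA m n) (x : Sg m n) :
    derHom φ v (gi x) = !![φ (gi x), v x; 0, gi x] := FreeAlgebra.lift_ι_apply _ _

theorem derHom_entries (φ : FA m n →ₐ[ℂ] FA m n) (v : Sg m n → FA m n) (a : FA m n) :
    derHom φ v a 0 0 = φ a ∧ derHom φ v a 1 0 = 0 ∧ derHom φ v a 1 1 = a := by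
  induction a using FreeAlgebra.induction with
  | grade0 r => simp [Matrix.algebraMap_matrix_apply]
  | grade1 x =>
    have := derHom_gi φ v x
    rw [this]; simp
  | mul a b ha hb => simp [Matrix.mul_apply, Fin.sum_univ_two, ha, hb]
  | add a b ha hb => simp [ha, hb]

/-- the twisted derivation with given values on generators -/
def der (φ : FA m n →ₐ[ℂ] FA m n) (v : Sg m n → FA m n) : FA m n →ₗ[ℂ] FA m n where
  toFun a := derHom φ v a 0 1
  map_add' a b := by simp
  map_smul' c a := by simp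

theorem der_gi (φ : FA m n →ₐ[ℂ] FA m n) (v : Sg m n → FA m n) (x : Sg m n) :
    der φ v (gi x) = v x := by
  change derHom φ v (gi x) 0 1 = v x
  rw [derHom_gi]; simp

theorem der_mul (φ : FA m n →ₐ[ℂ] FA m n) (v : Sg m n → FA m n) (a b : FA m n) :
    der φ v (a * b) = der φ v a * b + φ a * der φ v b := by
  change derHom φ v (a * b) 0 1 = _
  rw [map_mul, Matrix.mul_apply, Fin.sum_univ_two, (derHom_entries φ v a).1,
    (derHom_entries φ v b).2.2, add_comm]
  rfl

theorem der_algebraMap (φ : FA m n →ₐ[ℂ] FA m n) (v : Sg m n → FA m n) (r : ℂ) :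
    der φ v (algebraMap ℂ _ r) = 0 := by
  change derHom φ v (algebraMap ℂ _ r) 0 1 = _
  simp [Matrix.algebraMap_matrix_apply]

theorem der_one (φ : FA m n →ₐ[ℂ] FA m n) (v : Sg m n → FA m n) :
    der φ v 1 = 0 := by
  simpa using der_algebraMap φ v 1

/-! ### words and degrees -/

/-- the monomial of a word -/
def word (w : FreeMonoid (Sg m n)) : FA m n := FreeMonoid.lift (fun x => FreeAlgebra.ι ℂ x) w

theorem word_mul (w w' : FreeMonoid (Sg m n)) : word (w * w') = word w * word w' :=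
  map_mul _ _ _

theorem word_one : word (1 : FreeMonoid (Sg m n)) = 1 := map_one _

theorem word_of (x : Sg m n) : word (FreeMonoid.of x) = gi x := by
  simp [word]

/-- multidegree of a word -/
def deg (w : FreeMonoid (Sg m n)) : Sg m n →₀ ℕ :=
  Multiset.toFinsupp (↑(FreeMonoid.toList w) : Multiset (Sg m n))

theorem deg_mul (w w' : FreeMonoid (Sg m n)) : deg (w * w') = deg w + deg w' := by
  simp [deg, FreeMonoid.toList_mul, ← Multiset.coe_add]

theorem deg_one : deg (1 : FreeMonoid (Sg m n)) = 0 := by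
  simp [deg]

theorem deg_of (x : Sg m n) : deg (FreeMonoid.of x) = Finsupp.single x 1 := by
  simp [deg, FreeMonoid.toList_of]

/-- graded piece -/
def Gd (d : Sg m n →₀ ℕ) : Submodule ℂ (FA m n) := Submodule.span ℂ (word '' {w | deg w = d})

theorem word_mem (w : FreeMonoid (Sg m n)) : word w ∈ Gd (deg w) :=
  Submodule.subset_span ⟨w, rfl, rfl⟩

theorem Gd_le {d : Sg m n →₀ ℕ} {M : Submodule ℂ (FA m n)} (h : ∀ w, deg w = d → word w ∈ M) :
    Gd d ≤ M := by
  refine Submodule.span_le.2 ?_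
  rintro _ ⟨w, hw, rfl⟩
  exact h w hw

theorem mul_Gd {d d' : Sg m n →₀ ℕ} {a b : FA m n} (ha : a ∈ Gd d) (hb : b ∈ Gd d') :
    a * b ∈ Gd (d + d') := by
  have h1 : ∀ w, deg w = d → Gd d' ≤ (Gd (d + d')).comap (LinearMap.mulLeft ℂ (word w)) := by
    intro w hw
    refine Gd_le fun w' hw' => ?_
    change word w * word w' ∈ Gd (d + d')
    rw [← word_mul, ← hw, ← hw', ← deg_mul]
    exact word_mem _
  have h2 : Gd d ≤ (Gd (d + d')).comap (LinearMap.mulRight ℂ b) :=
    Gd_le fun w hw => h1 w hw hb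
  exact h2 ha

/-- the basis of words -/
theorem basis_word (w : FreeMonoid (Sg m n)) :
    FreeAlgebra.basisFreeMonoid ℂ (Sg m n) w = word w := by
  simp [FreeAlgebra.basisFreeMonoid, FreeAlgebra.equivMonoidAlgebraFreeMonoid, word]

theorem span_words : Submodule.span ℂ (Set.range (word (m := m) (n := n))) = ⊤ := by
  have := (FreeAlgebra.basisFreeMonoid ℂ (Sg m n)).span_eq
  rwa [show (⇑(FreeAlgebra.basisFreeMonoid ℂ (Sg m n)) : FreeMonoid (Sg m n) → FA m n) = word from
    funext basis_word] at this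

theorem words_ind {M : Submodule ℂ (FA m n)} (h : ∀ w, word w ∈ M) (a : FA m n) : a ∈ M := by
  have : (⊤ : Submodule ℂ (FA m n)) ≤ M := by
    rw [← span_words, Submodule.span_le]
    rintro _ ⟨w, rfl⟩
    exact h w
  exact this trivial

/-- projection to a graded piece -/
def proj (d : Sg m n →₀ ℕ) : FA m n →ₗ[ℂ] FA m n :=
  (FreeAlgebra.basisFreeMonoid ℂ (Sg m n)).constr ℂ fun w => if deg w = d then word w else 0

theorem proj_word (d : Sg m n →₀ ℕ) (w : FreeMonoid (Sg m n)) :
    proj d (word w) = if deg w = d then word w else 0 := by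
  have := (FreeAlgebra.basisFreeMonoid ℂ (Sg m n)).constr_basis ℂ
    (fun w => if deg w = d then word w else 0) w
  rwa [basis_word] at this

theorem proj_same {d : Sg m n →₀ ℕ} {a : FA m n} (ha : a ∈ Gd d) : proj d a = a := by
  have : Gd d ≤ LinearMap.eqLocus (proj d) LinearMap.id := by
    refine Gd_le fun w hw => ?_
    change proj d (word w) = word w
    rw [proj_word, if_pos hw]
  exact this ha

theorem proj_ne {d d' : Sg m n →₀ ℕ} (h : d' ≠ d) {a : FA m n} (ha : a ∈ Gd d') :
    proj d a = 0 := by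
  have : Gd d' ≤ LinearMap.ker (proj d) := by
    refine Gd_le fun w hw => ?_
    change proj d (word w) = 0
    rw [proj_word, if_neg (by rw [hw]; exact h)]
  exact this ha

theorem proj_mem (d : Sg m n →₀ ℕ) (a : FA m n) : proj d a ∈ Gd d := by
  refine words_ind (M := (Gd d).comap (proj d)) (fun w => ?_) a
  change proj d (word w) ∈ Gd d
  rw [proj_word]
  split_ifs with h
  · rw [← h]; exact word_mem w
  · exact Submodule.zero_mem _

/-- number of odd letters -/
def oc (d : Sg m n →₀ ℕ) : ℕ := ∑ j : Fin n, d (Sum.inr j)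

theorem oc_add (d d' : Sg m n →₀ ℕ) : oc (d + d') = oc d + oc d' := by
  simp [oc, Finset.sum_add_distrib]

/-- parity of a degree -/
def pd (d : Sg m n →₀ ℕ) : Bool := decide (Odd (oc d))

theorem sgn_pd (d : Sg m n →₀ ℕ) : sgn (pd d) = (-1) ^ oc d := by
  by_cases h : Odd (oc d)
  · simp [pd, h, h.neg_one_pow]
  · simp [pd, h, (Nat.not_odd_iff_even.1 h).neg_one_pow]

theorem sg_pd (d d' : Sg m n →₀ ℕ) : ((sg (pd d) (pd d') : ℤ) : ℂ) = (-1) ^ (oc d * oc d') := by
  by_cases h : Odd (oc d) <;> by_cases h' : Odd (oc d')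
  · simp [pd, h, h', sg, (h.mul h').neg_one_pow]
  · simp [pd, h, h', sg, (Even.mul_left (Nat.not_odd_iff_even.1 h') (oc d)).neg_one_pow]
  · simp [pd, h, h', sg, (Even.mul_right (Nat.not_odd_iff_even.1 h) (oc d')).neg_one_pow]
  · simp [pd, h, h', sg, (Even.mul_right (Nat.not_odd_iff_even.1 h) (oc d')).neg_one_pow]

theorem oc_single (x : Sg m n) : oc (Finsupp.single x 1) = if x.isRight then 1 else 0 := by
  cases x with
  | inl i => simp [oc]
  | inr j => simp [oc, Finsupp.single_apply]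

theorem ep_word (w : FreeMonoid (Sg m n)) : ep (word w) = ((-1 : ℂ) ^ oc (deg w)) • word w := by
  induction w using FreeMonoid.inductionOn' with
  | one => simp [word_one, deg_one, oc]
  | of_mul x w ih =>
    rw [word_mul, map_mul, ih, word_of, ep_gi, deg_mul, deg_of, oc_add, oc_single, pow_add]
    cases x <;> simp

theorem Gd_H (d : Sg m n →₀ ℕ) : Gd d ≤ H (FA m n) (pd d) := by
  refine Gd_le fun w hw => ?_
  rw [mem_H, ep_word, sgn_pd, hw]

theorem Br_Gd {d d' : Sg m n →₀ ℕ} {a b : FA m n} (ha : a ∈ Gd d) (hb : b ∈ Gd d') :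
    Br _ a b ∈ Gd (d + d') := by
  rw [Br_hom (Gd_H d ha) (Gd_H d' hb), br]
  refine Submodule.sub_mem _ (mul_Gd ha hb) (Submodule.smul_of_tower_mem _ _ ?_)
  rw [add_comm]
  exact mul_Gd hb ha

end

end Pool.Agent.SuperLCS
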