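import Pool.Agent.SuperLCS.Free

set_option autoImplicit false

/-! The multigrading on the lower central series. -/

namespace Pool.Agent.SuperLCS

open Par

noncomputable section

variable {m n : ℕ}

theorem Lc_le_iSup (i : ℕ) : Lc (FA m n) i ≤ ⨆ d, Lc (FA m n) i ⊓ Gd d := by
  induction i with
  | zero =>
    intro a _
    refine words_ind (fun w => ?_) a
    exact Submodule.mem_iSup_of_mem (deg w) ⟨trivial, word_mem w⟩
  | succ i ih =>
    refine Lc_succ_le_all fun a b hb => ?_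
    generalize hM : (⨆ d, Lc (FA m n) (i + 1) ⊓ Gd d) = M
    have h1 : ∀ w, (⨆ d, Lc (FA m n) i ⊓ Gd d) ≤ M.comap (Br (FA m n) (word w)) := by
      intro w
      refine iSup_le fun d => ?_
      intro b hb
      rw [← hM]
      exact Submodule.mem_iSup_of_mem (deg w + d) ⟨Br_mem _ hb.1, Br_Gd (word_mem w) hb.2⟩
    exact words_ind (M := M.comap ((Br (FA m n)).flip b))
      (fun w => h1 w (ih hb)) a

/-- generation of the next layer by words and multihomogeneous elements -/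
theorem Lc_succ_le_words {i : ℕ} {M : Submodule ℂ (FA m n)}
    (h : ∀ w d, ∀ b ∈ Lc (FA m n) i, b ∈ Gd d → Br (FA m n) (word w) b ∈ M) :
    Lc (FA m n) (i + 1) ≤ M := by
  refine Lc_succ_le_all fun a b hb => ?_
  have h1 : ∀ w, (⨆ d, Lc (FA m n) i ⊓ Gd d) ≤ M.comap (Br (FA m n) (word w)) :=
    fun w => iSup_le fun d b hb => h w d b hb.1 hb.2
  exact words_ind (M := M.comap ((Br (FA m n)).flip b)) (fun w => h1 w (Lc_le_iSup i hb)) a

theorem Lc_succ_inf_le {i : ℕ} {d' : Sg m n →₀ ℕ} {M : Submodule ℂ (FA m n)}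
    (h : ∀ w d, ∀ b ∈ Lc (FA m n) i, b ∈ Gd d → deg w + d = d' → Br (FA m n) (word w) b ∈ M) :
    Lc (FA m n) (i + 1) ⊓ Gd d' ≤ M := by
  intro x hx
  rw [← proj_same hx.2]
  have : Lc (FA m n) (i + 1) ≤ M.comap (proj d') := by
    refine Lc_succ_le_words fun w d b hb hd => ?_
    change proj d' (Br (FA m n) (word w) b) ∈ M
    by_cases e : deg w + d = d'
    · rw [proj_same]
      · exact h w d b hb hd e
      · rw [← e]; exact Br_Gd (word_mem w) hd
    · rw [proj_ne e (Br_Gd (word_mem w) hd)]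
      exact Submodule.zero_mem _
  exact this hx.1

theorem proj_Lc (d : Sg m n →₀ ℕ) {i : ℕ} {a : FA m n} (ha : a ∈ Lc (FA m n) i) :
    proj d a ∈ Lc (FA m n) i := by
  have : (⨆ d, Lc (FA m n) i ⊓ Gd d) ≤ (Lc (FA m n) i).comap (proj d) := by
    refine iSup_le fun d' b hb => ?_
    change proj d b ∈ Lc (FA m n) i
    by_cases e : d' = d
    · subst e; rw [proj_same hb.2]; exact hb.1
    · rw [proj_ne e hb.2]; exact Submodule.zero_mem _
  exact this (Lc_le_iSup i ha)

/-- a linear map shifting degrees by `e` -/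
theorem proj_shift {X : FA m n →ₗ[ℂ] FA m n} {e : Sg m n →₀ ℕ}
    (hX : ∀ d, ∀ a ∈ Gd d, X a ∈ Gd (d + e)) (d : Sg m n →₀ ℕ) (a : FA m n) :
    proj (d + e) (X a) = X (proj d a) := by
  refine words_ind (M := LinearMap.eqLocus ((proj (d + e)).comp X) (X.comp (proj d))) (fun w => ?_) a
  change proj (d + e) (X (word w)) = X (proj d (word w))
  have h := hX _ _ (word_mem w)
  by_cases e' : deg w = d
  · subst e'
    rw [proj_same h, proj_same (word_mem w)]
  · rw [proj_ne (fun h => e' (add_right_cancel h)) h, proj_ne e' (word_mem w), map_zero]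

/-- graded form of surjectivity -/
theorem graded_surj {X : FA m n →ₗ[ℂ] FA m n} {e : Sg m n →₀ ℕ}
    (hX : ∀ d, ∀ a ∈ Gd d, X a ∈ Gd (d + e)) {k : ℕ} {d : Sg m n →₀ ℕ}
    (h : Lc (FA m n) k ⊓ Gd (d + e) ≤ (Lc (FA m n) k).map X ⊔ Lc (FA m n) (k + 1)) :
    Lc (FA m n) k ⊓ Gd (d + e) ≤
      (Lc (FA m n) k ⊓ Gd d).map X ⊔ (Lc (FA m n) (k + 1) ⊓ Gd (d + e)) := by
  intro x hx
  obtain ⟨y, ⟨z, hz, rfl⟩, v, hv, hyv⟩ := Submodule.mem_sup.1 (h hx)
  rw [← proj_same hx.2, ← hyv, map_add, proj_shift hX]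
  exact Submodule.add_mem _ (Submodule.mem_sup_left ⟨_, ⟨proj_Lc _ hz, proj_mem _ _⟩, rfl⟩)
    (Submodule.mem_sup_right ⟨proj_Lc _ hv, proj_mem _ _⟩)

/-- derivations preserve the lower central series -/
theorem der_Lc {A : Type*} [Ring A] [Algebra ℂ A] [Par A] {X : A →ₗ[ℂ] A}
    {φ : A → A} (h : ∀ a b, X (Br A a b) = Br A (X a) b + Br A (φ a) (X b)) {i : ℕ} {a : A}
    (ha : a ∈ Lc A i) : X a ∈ Lc A i := by
  induction i generalizing a with
  | zero => trivial
  | succ i ih =>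
    have : Lc A (i + 1) ≤ (Lc A (i + 1)).comap X := by
      refine Lc_succ_le_all fun a b hb => ?_
      change X (Br A a b) ∈ Lc A (i + 1)
      rw [h]
      exact Submodule.add_mem _ (Br_mem _ hb) (Br_mem _ (ih hb))
    exact this ha

/-! ### identification with the given data -/

theorem L_eq (L : ℕ → Submodule ℂ (FA m n)) (G : (Sg m n →₀ ℕ) → Submodule ℂ (FA m n))
    (hG : ∀ d, G d = Gd d) (h1 : L 1 = ⊤)
    (hs : ∀ k : ℕ, 1 ≤ k → L (k + 1) = Submodule.span ℂ
        {x : FA m n | ∃ (w : FreeMonoid (Sg m n)) (d : Sg m n →₀ ℕ) (b : FA m n),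
            b ∈ L k ⊓ G d ∧ x = word w * b - ((-1 : ℂ) ^ (oc (deg w) * oc d)) • (b * word w)}) :
    ∀ i, L (i + 1) = Lc (FA m n) i := by
  intro i
  induction i with
  | zero => exact h1
  | succ i ih =>
    rw [hs (i + 1) (by omega), ih]
    have e : ∀ w d b, b ∈ Gd d → word w * b - ((-1 : ℂ) ^ (oc (deg w) * oc d)) • (b * word w) =
        Br (FA m n) (word w) b := by
      intro w d b hb
      rw [Br_hom (Gd_H _ (word_mem w)) (Gd_H d hb), br, ← sg_pd, Int.cast_smul_eq_zsmul]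
    apply le_antisymm
    · rw [Submodule.span_le]
      rintro _ ⟨w, d, b, ⟨hb, hb'⟩, rfl⟩
      rw [hG] at hb'
      rw [e w d b hb']
      exact Br_mem _ hb
    · refine Lc_succ_le_words fun w d b hb hd => ?_
      refine Submodule.subset_span ⟨w, d, b, ⟨hb, by rw [hG]; exact hd⟩, (e w d b hd).symm⟩

end

end Pool.Agent.SuperLCS
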