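import Pool.Agent.SuperLCS.GradedLc

set_option autoImplicit false

/-! Derivations of the free superalgebra, and the derivation attached to a letter. -/

namespace Pool.Agent.SuperLCS

open Par

noncomputable section

variable {m n : ℕ}

/-! ### degree behaviour -/

theorem gi_Gd (x : Sg m n) : gi x ∈ Gd (Finsupp.single x 1) := by
  rw [← word_of, ← deg_of]; exact word_mem _

theorem ep_gi_Gd (x : Sg m n) : ep (gi x) ∈ Gd (Finsupp.single x 1) := by
  rw [ep_gi]; exact Submodule.smul_mem _ _ (gi_Gd x)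

theorem der_Gd {φ : FA m n →ₐ[ℂ] FA m n} {v : Sg m n → FA m n} {e : Sg m n →₀ ℕ}
    (hφ : ∀ x, φ (gi x) ∈ Gd (Finsupp.single x 1)) (hv : ∀ x, v x ∈ Gd (Finsupp.single x 1 + e))
    (d : Sg m n →₀ ℕ) : ∀ a ∈ Gd d, der φ v a ∈ Gd (d + e) := by
  have h : ∀ w, der φ v (word w) ∈ Gd (deg w + e) := by
    intro w
    induction w using FreeMonoid.inductionOn' with
    | one => rw [word_one, der_one]; exact Submodule.zero_mem _
    | of_mul x w ih =>
      rw [word_mul, der_mul, word_of, der_gi, deg_mul, deg_of]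
      refine Submodule.add_mem _ ?_ ?_
      · have := mul_Gd (hv x) (word_mem w)
        rwa [add_right_comm] at this
      · have := mul_Gd (hφ x) ih
        rwa [← add_assoc] at this
  intro a ha
  have : Gd d ≤ (Gd (d + e)).comap (der φ v) := by
    refine Gd_le fun w hw => ?_
    rw [← hw]; exact h w
  exact this ha

/-! ### even derivations -/

section even
variable {v : Sg m n → FA m n} (hv : ∀ x, ep (v x) = sgn x.isRight • v x)
include hv

theorem ep_der_id (a : FA m n) : der (AlgHom.id ℂ _) v (ep a) = ep (der (AlgHom.id ℂ _) v a) := by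
  induction a using FreeAlgebra.induction with
  | grade0 r => rw [AlgHom.commutes, der_algebraMap, map_zero]
  | grade1 x =>
    change der (AlgHom.id ℂ _) v (ep (gi x)) = ep (der (AlgHom.id ℂ _) v (gi x))
    rw [ep_gi, map_smul, der_gi, hv]
  | mul a b ha hb =>
    simp only [map_mul, der_mul, ha, hb, map_add, AlgHom.coe_id, id_eq]
  | add a b ha hb => simp only [map_add, ha, hb]

theorem der_id_Br (a b : FA m n) : der (AlgHom.id ℂ _) v (Br _ a b) =
    Br _ (der (AlgHom.id ℂ _) v a) b + Br _ a (der (AlgHom.id ℂ _) v b) := by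
  simp only [Br_apply, sw, map_sub, map_smul, map_add, der_mul, AlgHom.coe_id, id_eq,
    ep_der_id hv, smul_add, smul_sub]
  module

end even

/-! ### odd derivations -/

section odd
variable {v : Sg m n → FA m n} (hv : ∀ x, ep (v x) = -(sgn x.isRight • v x))
include hv

theorem ep_der_ep (a : FA m n) : ep (der ep v a) = -(der ep v (ep a)) := by
  induction a using FreeAlgebra.induction with
  | grade0 r => rw [AlgHom.commutes, der_algebraMap, map_zero, neg_zero]
  | grade1 x =>
    change ep (der ep v (gi x)) = -der ep v (ep (gi x))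
    rw [ep_gi, map_smul, der_gi, hv]
  | mul a b ha hb =>
    simp only [map_mul, der_mul, ha, hb, map_add, inv]
    noncomm_ring
  | add a b ha hb => simp only [map_add, ha, hb, neg_add]

theorem der_ep_Br (a b : FA m n) : der ep v (Br _ a b) =
    Br _ (der ep v a) b + Br _ (ep a) (der ep v b) := by
  simp only [Br_apply, sw, map_sub, map_smul, map_add, der_mul,
    ep_der_ep hv, smul_add, smul_sub, inv, neg_mul, mul_neg]
  module

end odd

/-! ### the letter derivation -/

/-- step of a letter -/
def cz (z : Sg m n) : ℕ := bif z.isRight then 2 else 1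

/-- even power of a letter -/
def uz (z : Sg m n) : FA m n := gi z ^ cz z

/-- even derivation attached to a letter -/
def vz (z : Sg m n) : Sg m n → FA m n := fun x => if x = z then uz z * gi z else 0

/-- even derivation attached to a letter -/
def Xz (z : Sg m n) : FA m n →ₗ[ℂ] FA m n := der (AlgHom.id ℂ _) (vz z)

theorem ep_uz (z : Sg m n) : ep (uz z) = uz z := by
  rw [uz, map_pow, ep_gi]
  cases z <;> simp [cz]

theorem ep_vz (z x : Sg m n) : ep (vz z x) = sgn x.isRight • vz z x := by
  unfold vz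
  split_ifs with h
  · subst h
    rw [map_mul, ep_uz, ep_gi, mul_smul_comm]
  · simp

theorem Xz_Br (z : Sg m n) (a b : FA m n) :
    Xz z (Br _ a b) = Br _ (Xz z a) b + Br _ a (Xz z b) := der_id_Br (ep_vz z) a b

theorem Xz_mul (z : Sg m n) (a b : FA m n) : Xz z (a * b) = Xz z a * b + a * Xz z b :=
  der_mul _ _ _ _

theorem Xz_gi_self (z : Sg m n) : Xz z (gi z) = uz z * gi z := by
  rw [Xz, der_gi, vz, if_pos rfl]

theorem Xz_gi_ne {z x : Sg m n} (h : x ≠ z) : Xz z (gi x) = 0 := by
  rw [Xz, der_gi, vz, if_neg h]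

theorem Xz_uz (z : Sg m n) : Xz z (uz z) = (cz z : ℂ) • (uz z * uz z) := by
  cases z with
  | inl i =>
    have : uz (Sum.inl i : Sg m n) = gi (Sum.inl i) := by simp [uz, cz]
    have h := Xz_gi_self (Sum.inl i : Sg m n)
    rw [this] at h ⊢
    rw [h]; simp [cz]
  | inr i =>
    have : uz (Sum.inr i : Sg m n) = gi (Sum.inr i) * gi (Sum.inr i) := by simp [uz, cz, sq]
    have h := Xz_gi_self (Sum.inr i : Sg m n)
    rw [this] at h ⊢
    rw [Xz_mul, h]
    simp only [cz, Sum.isRight_inr, cond_true]
    push_cast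
    rw [two_smul]
    noncomm_ring

theorem gi_pow_Gd (z : Sg m n) (k : ℕ) : gi z ^ k ∈ Gd (Finsupp.single z k) := by
  induction k with
  | zero =>
    rw [pow_zero, Finsupp.single_zero, ← word_one, ← deg_one]; exact word_mem _
  | succ k ih =>
    rw [pow_succ, Finsupp.single_add]
    exact mul_Gd ih (gi_Gd z)

theorem Xz_Gd (z : Sg m n) (d : Sg m n →₀ ℕ) : ∀ a ∈ Gd d,
    Xz z a ∈ Gd (d + Finsupp.single z (cz z)) := by
  refine der_Gd (fun x => gi_Gd x) (fun x => ?_) d
  unfold vz
  split_ifs with h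
  · subst h
    rw [add_comm]
    exact mul_Gd (gi_pow_Gd x _) (gi_Gd x)
  · exact Submodule.zero_mem _

theorem cz_pos (z : Sg m n) : 0 < cz z := by
  cases z <;> simp [cz]

theorem shiftor (z : Sg m n) : Shiftor (uz z) (Xz z) (cz z) where
  hu := ep_uz z
  der := Xz_Br z
  comm := by
    intro a
    have : Xz z (Lam (uz z) a) - Lam (uz z) (Xz z a) - (cz z : ℂ) • Lam (uz z) (Lam (uz z) a) =
        ((cz z : ℂ) * (1/4)) • Br _ (uz z) (Br _ (uz z) a) := by
      rw [Br_even (ep_uz z), Br_even (ep_uz z)]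
      simp only [Lam_apply, map_smul, map_add, Xz_mul, Xz_uz, smul_mul_assoc,
        mul_smul_comm, mul_assoc, mul_sub, sub_mul]
      module
    rw [this]
    exact Submodule.smul_mem _ _ (Lc2_le_M3 (Br_mem _ (Br_mem _ trivial)))

theorem Xz_Lc (z : Sg m n) {i : ℕ} {a : FA m n} (ha : a ∈ Lc (FA m n) i) :
    Xz z a ∈ Lc (FA m n) i := der_Lc (φ := id) (Xz_Br z) ha

end

end Pool.Agent.SuperLCS
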