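import Pool.Agent.SuperLCS.PureY
import Pool.Agent.SuperLCS.Comb

set_option autoImplicit false

/-! The rationality theorem. -/

namespace Pool.Agent.SuperLCS

theorem cz_cases {m n : ℕ} (z : Sg m n) : cz z = 1 ∨ cz z = 2 := by
  cases z <;> simp [cz]

theorem isRight_of_cz {m n : ℕ} {z : Sg m n} (h : cz z = 2) : z.isRight = true := by
  cases z with
  | inl i => simp [cz] at h
  | inr i => rfl

/-- rationality of the series of `L_{i+1} / L_{i+2}` for `i ≥ 2` -/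
theorem rational (m n i : ℕ) (hi : 2 ≤ i) (F : MvPowerSeries (Sg m n) ℤ)
    (hF : ∀ d, MvPowerSeries.coeff d F = hd m n i d) :
    ∃ p : MvPolynomial (Sg m n) ℤ, F * ∏ s, (1 - MvPowerSeries.X s) =
      (p : MvPowerSeries (Sg m n) ℤ) := by
  obtain ⟨k, rfl⟩ : ∃ k, i = k + 1 := ⟨i - 1, by omega⟩
  refine final_comb (h := hd m n (k + 1)) (hd_nonneg (k + 1)) (c := cz) cz_cases
    (fun z => hd_step z k) (fun z hz d => ?_) F hF
  exact hd_const (isRight_of_cz hz) k (by omega) d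

theorem main (m n : ℕ) (L : ℕ → Submodule ℂ (FreeAlgebra ℂ (Fin m ⊕ Fin n)))
    (G : ((Fin m ⊕ Fin n) →₀ ℕ) → Submodule ℂ (FreeAlgebra ℂ (Fin m ⊕ Fin n)))
    (hG : ∀ d : (Fin m ⊕ Fin n) →₀ ℕ, G d = Submodule.span ℂ
        ((fun w : FreeMonoid (Fin m ⊕ Fin n) =>
            FreeMonoid.lift (fun x => FreeAlgebra.ι ℂ x) w) ''
          {w : FreeMonoid (Fin m ⊕ Fin n) |
            Multiset.toFinsupp (↑(FreeMonoid.toList w) : Multiset (Fin m ⊕ Fin n)) = d}))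
    (h1 : L 1 = ⊤)
    (hs : ∀ k : ℕ, 1 ≤ k → L (k + 1) = Submodule.span ℂ
        {x : FreeAlgebra ℂ (Fin m ⊕ Fin n) |
          ∃ (w : FreeMonoid (Fin m ⊕ Fin n)) (d : (Fin m ⊕ Fin n) →₀ ℕ)
            (b : FreeAlgebra ℂ (Fin m ⊕ Fin n)),
            b ∈ L k ⊓ G d ∧
            x = FreeMonoid.lift (fun x => FreeAlgebra.ι ℂ x) w * b -
              ((-1 : ℂ) ^ ((∑ j : Fin n,
                  (Multiset.toFinsupp (↑(FreeMonoid.toList w) : Multiset (Fin m ⊕ Fin n)))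
                    (Sum.inr j)) * ∑ j : Fin n, d (Sum.inr j))) •
                (b * FreeMonoid.lift (fun x => FreeAlgebra.ι ℂ x) w)})
    (k : ℕ) (hk : 3 ≤ k) (F : MvPowerSeries (Fin m ⊕ Fin n) ℤ)
    (hF : ∀ d : (Fin m ⊕ Fin n) →₀ ℕ, MvPowerSeries.coeff d F =
      (Module.finrank ℂ (L k ⊓ G d : Submodule ℂ (FreeAlgebra ℂ (Fin m ⊕ Fin n))) : ℤ) -
      (Module.finrank ℂ (L (k + 1) ⊓ G d : Submodule ℂ (FreeAlgebra ℂ (Fin m ⊕ Fin n))) : ℤ)) :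
    ∃ p : MvPolynomial (Fin m ⊕ Fin n) ℤ, F * ∏ s, (1 - MvPowerSeries.X s) =
      (p : MvPowerSeries (Fin m ⊕ Fin n) ℤ) := by
  have hL := L_eq L G hG h1 hs
  obtain ⟨i, rfl⟩ : ∃ i, k = i + 1 := ⟨k - 1, by omega⟩
  refine rational m n i (by omega) F fun d => ?_
  rw [hF, hL i, hL (i + 1)]
  have hGd : G d = Gd d := hG d
  rw [hGd]
  rfl

end Pool.Agent.SuperLCS
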