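import Pool.Agent.SuperLCS.Surj

set_option autoImplicit false

/-! The odd derivation attached to an odd letter and exactness. -/

namespace Pool.Agent.SuperLCS

open Par

noncomputable section

variable {m n : ℕ} (y : Sg m n)

/-- derivative with respect to a letter -/
def pdv : FA m n →ₗ[ℂ] FA m n := der ep (fun x => if x = y then 1 else 0)

/-- the contracting derivation -/
def qdv : FA m n →ₗ[ℂ] FA m n := der ep (fun x => if x = y then 0 else gi y * gi x)

theorem pdv_mul (a b : FA m n) : pdv y (a * b) = pdv y a * b + ep a * pdv y b := der_mul _ _ _ _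
theorem qdv_mul (a b : FA m n) : qdv y (a * b) = qdv y a * b + ep a * qdv y b := der_mul _ _ _ _

theorem pdv_gi (x : Sg m n) : pdv y (gi x) = if x = y then 1 else 0 := der_gi _ _ _
theorem qdv_gi (x : Sg m n) : qdv y (gi x) = if x = y then 0 else gi y * gi x := der_gi _ _ _

theorem pdv_one : pdv y (1 : FA m n) = 0 := der_one _ _
theorem qdv_one : qdv y (1 : FA m n) = 0 := der_one _ _

/-- number of other letters -/
def nd (d : Sg m n →₀ ℕ) : ℕ := ∑ x ∈ Finset.univ.erase y, d x

theorem nd_add (d d' : Sg m n →₀ ℕ) : nd y (d + d') = nd y d + nd y d' := by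
  simp [nd, Finset.sum_add_distrib]

theorem nd_single_self (k : ℕ) : nd y (Finsupp.single y k) = 0 := by
  rw [nd]
  refine Finset.sum_eq_zero fun x hx => ?_
  exact Finsupp.single_eq_of_ne (Finset.ne_of_mem_erase hx)

theorem nd_single_ne {x : Sg m n} (h : x ≠ y) : nd y (Finsupp.single x 1) = 1 := by
  rw [nd, Finset.sum_eq_single x]
  · simp
  · intro b _ hb
    exact Finsupp.single_eq_of_ne hb
  · intro hx
    exact absurd (Finset.mem_erase.2 ⟨h, Finset.mem_univ x⟩) hx

/-! ### degrees -/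

theorem pdv_zero_of {w : FreeMonoid (Sg m n)} (h : deg w y = 0) : pdv y (word w) = 0 := by
  induction w using FreeMonoid.inductionOn' with
  | one => rw [word_one, pdv_one]
  | of_mul x w ih =>
    rw [deg_mul, deg_of, Finsupp.add_apply] at h
    have hx : x ≠ y := by
      rintro rfl
      rw [Finsupp.single_eq_same] at h
      omega
    rw [word_mul, word_of, pdv_mul, pdv_gi, if_neg hx, ih (by omega), zero_mul, mul_zero, add_zero]

theorem pdv_word {w : FreeMonoid (Sg m n)} {d : Sg m n →₀ ℕ} (h : deg w = d + Finsupp.single y 1) :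
    pdv y (word w) ∈ Gd d := by
  induction w using FreeMonoid.inductionOn' generalizing d with
  | one => rw [word_one, pdv_one]; exact Submodule.zero_mem _
  | of_mul x w ih =>
    rw [deg_mul, deg_of] at h
    rw [word_mul, word_of, pdv_mul, pdv_gi]
    by_cases hx : x = y
    · subst hx
      rw [if_pos rfl, one_mul]
      have hd : deg w = d := by
        rw [add_comm] at h; exact add_right_cancel h
      refine Submodule.add_mem _ (by rw [← hd]; exact word_mem w) ?_
      by_cases h0 : deg w x = 0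
      · rw [pdv_zero_of x h0, mul_zero]; exact Submodule.zero_mem _
      · have e : deg w = (deg w - Finsupp.single x 1) + Finsupp.single x 1 := by
          rw [tsub_add_cancel_of_le]
          intro z
          by_cases hz : z = x
          · subst hz; rw [Finsupp.single_eq_same]; omega
          · rw [Finsupp.single_eq_of_ne hz]; exact Nat.zero_le _
        have h1 := mul_Gd (ep_gi_Gd x) (ih e)
        rwa [add_comm, ← e, hd] at h1
    · rw [if_neg hx, zero_mul, zero_add]
      have e : deg w = (d - Finsupp.single x 1) + Finsupp.single y 1 := by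
        ext z
        have hz := DFunLike.congr_fun h z
        simp only [Finsupp.add_apply, Finsupp.tsub_apply] at hz ⊢
        have h1 : Finsupp.single x 1 z = 0 ∨ Finsupp.single y 1 z = 0 := by
          by_cases h2 : z = x
          · right; subst h2; exact Finsupp.single_eq_of_ne hx
          · left; exact Finsupp.single_eq_of_ne h2
        omega
      have e2 : d = Finsupp.single x 1 + (d - Finsupp.single x 1) := by
        ext z
        have hz := DFunLike.congr_fun h z
        simp only [Finsupp.add_apply, Finsupp.tsub_apply] at hz ⊢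
        have h1 : Finsupp.single x 1 z = 0 ∨ Finsupp.single y 1 z = 0 := by
          by_cases h2 : z = x
          · right; subst h2; exact Finsupp.single_eq_of_ne hx
          · left; exact Finsupp.single_eq_of_ne h2
        omega
      have h1 := mul_Gd (ep_gi_Gd x) (ih e)
      rwa [← e2] at h1

theorem pdv_Gd {d : Sg m n →₀ ℕ} {a : FA m n} (h : a ∈ Gd (d + Finsupp.single y 1)) :
    pdv y a ∈ Gd d :=
  (Gd_le fun _ hw => pdv_word y hw : Gd (d + Finsupp.single y 1) ≤ (Gd d).comap (pdv y)) h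

theorem qdv_Gd {d : Sg m n →₀ ℕ} {a : FA m n} (h : a ∈ Gd d) :
    qdv y a ∈ Gd (d + Finsupp.single y 1) := by
  refine der_Gd (fun x => ep_gi_Gd x) (fun x => ?_) d a h
  by_cases hx : x = y
  · rw [if_pos hx]; exact Submodule.zero_mem _
  · rw [if_neg hx, add_comm]
    exact mul_Gd (gi_Gd y) (gi_Gd x)

section
variable {y} (hy : y.isRight = true)
include hy

theorem hv_p (x : Sg m n) : ep (if x = y then (1 : FA m n) else 0) =
    -(sgn x.isRight • (if x = y then (1 : FA m n) else 0)) := by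
  by_cases hx : x = y
  · subst hx; simp [hy]
  · simp [hx]

theorem hv_q (x : Sg m n) : ep (if x = y then (0 : FA m n) else gi y * gi x) =
    -(sgn x.isRight • (if x = y then (0 : FA m n) else gi y * gi x)) := by
  by_cases hx : x = y
  · simp [hx]
  · rw [if_neg hx, map_mul, ep_gi, ep_gi, hy]
    simp

theorem ep_pdv (a : FA m n) : ep (pdv y a) = -(pdv y (ep a)) := ep_der_ep (hv_p hy) a
theorem ep_qdv (a : FA m n) : ep (qdv y a) = -(qdv y (ep a)) := ep_der_ep (hv_q hy) a

theorem pdv_Br (a b : FA m n) : pdv y (Br _ a b) = Br _ (pdv y a) b + Br _ (ep a) (pdv y b) :=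
  der_ep_Br (hv_p hy) a b
theorem qdv_Br (a b : FA m n) : qdv y (Br _ a b) = Br _ (qdv y a) b + Br _ (ep a) (qdv y b) :=
  der_ep_Br (hv_q hy) a b

theorem pdv_Lc {i : ℕ} {a : FA m n} (ha : a ∈ Lc (FA m n) i) : pdv y a ∈ Lc (FA m n) i :=
  der_Lc (pdv_Br hy) ha
theorem qdv_Lc {i : ℕ} {a : FA m n} (ha : a ∈ Lc (FA m n) i) : qdv y a ∈ Lc (FA m n) i :=
  der_Lc (qdv_Br hy) ha

theorem pdv_pdv (a : FA m n) : pdv y (pdv y a) = 0 := by
  induction a using FreeAlgebra.induction with
  | grade0 r => rw [pdv, der_algebraMap, map_zero]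
  | grade1 x =>
    change pdv y (pdv y (gi x)) = 0
    rw [pdv_gi]
    split_ifs
    · exact pdv_one y
    · exact map_zero _
  | mul a b ha hb =>
    simp only [pdv_mul, map_add, ha, hb, ep_pdv hy, inv, zero_mul, mul_zero]
    noncomm_ring
  | add a b ha hb => rw [map_add, map_add, ha, hb, add_zero]

theorem ndv_word (w : FreeMonoid (Sg m n)) :
    pdv y (qdv y (word w)) + qdv y (pdv y (word w)) = (nd y (deg w) : ℂ) • word w := by
  induction w using FreeMonoid.inductionOn' with
  | one => rw [word_one, pdv_one, qdv_one, deg_one]; simp [nd]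
  | of_mul x w ih =>
    rw [word_mul, word_of, deg_mul, deg_of, nd_add]
    have e : pdv y (qdv y (gi x * word w)) + qdv y (pdv y (gi x * word w)) =
        (pdv y (qdv y (gi x)) + qdv y (pdv y (gi x))) * word w +
        gi x * (pdv y (qdv y (word w)) + qdv y (pdv y (word w))) := by
      simp only [pdv_mul, qdv_mul, map_add, ep_pdv hy, ep_qdv hy, inv]
      noncomm_ring
    rw [e, ih]
    by_cases hx : x = y
    · subst hx
      rw [qdv_gi, pdv_gi, if_pos rfl, if_pos rfl, map_zero, qdv_one, nd_single_self]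
      simp
    · rw [qdv_gi, pdv_gi, if_neg hx, if_neg hx, map_zero, pdv_mul, pdv_gi, pdv_gi, if_pos rfl,
        if_neg hx, nd_single_ne y hx]
      push_cast
      rw [mul_smul_comm]
      simp only [one_mul, mul_zero, add_zero]
      module

theorem ndv {d : Sg m n →₀ ℕ} {a : FA m n} (ha : a ∈ Gd d) :
    pdv y (qdv y a) + qdv y (pdv y a) = (nd y d : ℂ) • a := by
  have : Gd d ≤ LinearMap.eqLocus ((pdv y).comp (qdv y) + (qdv y).comp (pdv y))
      ((nd y d : ℂ) • LinearMap.id) := by
    refine Gd_le fun w hw => ?_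
    change pdv y (qdv y (word w)) + qdv y (pdv y (word w)) = (nd y d : ℂ) • word w
    rw [← hw]; exact ndv_word hy w
  exact this ha

/-- cycles of the graded piece -/
theorem cycles_eq {k : ℕ} {d : Sg m n →₀ ℕ} (hd : nd y d ≠ 0) :
    (Lc (FA m n) k ⊓ Gd (d + Finsupp.single y 1)).map (pdv y) ⊔ (Lc (FA m n) (k + 1) ⊓ Gd d) =
      (Lc (FA m n) k ⊓ Gd d) ⊓ (Lc (FA m n) (k + 1)).comap (pdv y) := by
  apply le_antisymm
  · refine sup_le ?_ ?_
    · rintro _ ⟨x, hx, rfl⟩
      refine ⟨⟨pdv_Lc hy hx.1, pdv_Gd y hx.2⟩, ?_⟩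
      change pdv y (pdv y x) ∈ Lc (FA m n) (k + 1)
      rw [pdv_pdv hy]; exact Submodule.zero_mem _
    · intro x hx
      exact ⟨⟨Lc_anti _ hx.1, hx.2⟩, pdv_Lc hy hx.1⟩
  · rintro x ⟨⟨h1, h2⟩, h3⟩
    have h3' : pdv y x ∈ Lc (FA m n) (k + 1) := h3
    have e := ndv hy h2
    have g1 : pdv y (qdv y x) ∈ Gd d := pdv_Gd y (qdv_Gd y h2)
    have g2 : qdv y (pdv y x) ∈ Gd d := by
      have : qdv y (pdv y x) = (nd y d : ℂ) • x - pdv y (qdv y x) := by rw [← e]; abel
      rw [this]
      exact Submodule.sub_mem _ (Submodule.smul_mem _ _ h2) g1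
    have hne : (nd y d : ℂ) ≠ 0 := Nat.cast_ne_zero.2 hd
    have ex : x = (nd y d : ℂ)⁻¹ • (pdv y (qdv y x) + qdv y (pdv y x)) := by
      rw [e, smul_smul, inv_mul_cancel₀ hne, one_smul]
    rw [ex]
    refine Submodule.smul_mem _ _ (Submodule.add_mem _ (Submodule.mem_sup_left ?_)
      (Submodule.mem_sup_right ⟨qdv_Lc hy h3', g2⟩))
    exact ⟨qdv y x, ⟨qdv_Lc hy h1, qdv_Gd y h2⟩, rfl⟩

end

/-- dimension of cycles modulo the next layer -/
def kd (k : ℕ) (d : Sg m n →₀ ℕ) : ℤ :=
  (Module.finrank ℂ ((Lc (FA m n) k ⊓ Gd d) ⊓ (Lc (FA m n) (k + 1)).comap (pdv y) :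
    Submodule ℂ (FA m n)) : ℤ) -
    (Module.finrank ℂ (Lc (FA m n) (k + 1) ⊓ Gd d : Submodule ℂ (FA m n)) : ℤ)

variable {y} in
theorem kd_nonneg (hy : y.isRight = true) (k : ℕ) (d : Sg m n →₀ ℕ) : 0 ≤ kd y k d := by
  have : FiniteDimensional ℂ ((Lc (FA m n) k ⊓ Gd d) ⊓ (Lc (FA m n) (k + 1)).comap (pdv y) :
    Submodule ℂ (FA m n)) := Submodule.finiteDimensional_inf_left _ _
  have h : Lc (FA m n) (k + 1) ⊓ Gd d ≤
      (Lc (FA m n) k ⊓ Gd d) ⊓ (Lc (FA m n) (k + 1)).comap (pdv y) := by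
    intro x hx
    exact ⟨⟨Lc_anti _ hx.1, hx.2⟩, pdv_Lc hy hx.1⟩
  have := Submodule.finrank_mono h
  rw [kd]
  omega

variable {y} in
theorem hd_eq_kd (hy : y.isRight = true) (k : ℕ) {d : Sg m n →₀ ℕ} (hd' : nd y d ≠ 0) :
    hd m n k (d + Finsupp.single y 1) = kd y k (d + Finsupp.single y 1) + kd y k d := by
  have h := dim_formula (pdv y) (Lc (FA m n) k ⊓ Gd (d + Finsupp.single y 1))
    (Lc (FA m n) (k + 1) ⊓ Gd d)
  rw [cycles_eq hy hd'] at h
  have e : Lc (FA m n) k ⊓ Gd (d + Finsupp.single y 1) ⊓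
      (Lc (FA m n) (k + 1) ⊓ Gd d).comap (pdv y) =
      (Lc (FA m n) k ⊓ Gd (d + Finsupp.single y 1)) ⊓ (Lc (FA m n) (k + 1)).comap (pdv y) := by
    apply le_antisymm
    · rintro x ⟨h1, h2⟩
      exact ⟨h1, h2.1⟩
    · rintro x ⟨h1, h2⟩
      exact ⟨h1, h2, pdv_Gd y h1.2⟩
  rw [e] at h
  simp only [hd, kd]
  omega

end

end Pool.Agent.SuperLCS
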