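import Pool.Agent.SuperLCS.EvenLetter

set_option autoImplicit false

/-! Decomposition of words with respect to an odd letter. -/

namespace Pool.Agent.SuperLCS

open Par

noncomputable section

section pure
variable {A : Type*} [Ring A]

/-- identity behind the product of two brackets with an odd element -/
theorem pure_prod (p q : Bool) (z a b : A) :
    br true (xor p (xor true q)) z (br p (xor true q) a (z * b)) -
      br true (xor p true) z (br p true a z) * b -
      (sg p true * sg true true) • (z * br true (xor p q) z (br p q a b)) =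
    br true p z a * br true q z b + (2 * sg true p) • (z * z * br p q a b) := by
  cases p <;> cases q <;> simp [br, sg] <;> noncomm_ring

theorem pure_triple (p q : Bool) (z a b : A) :
    z * a * z * b * z = sg true q • (z * a * (z * z) * b) -
      (sg true p * sg true q) • (z * z * (a * br true q z b)) +
      (sg true p * sg true q) • (z * (br true p z a * br true q z b)) := by
  cases p <;> cases q <;> simp [br, sg] <;> noncomm_ring

end pure

section gen
variable {A : Type*} [Ring A] [Algebra ℂ A] [Par A] {z : A} (hz : ep z = -z)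
include hz

theorem Br_odd (a : A) : Br A z a = z * a - ep a * z := by
  rw [Br_apply, sw, hz]
  simp only [mul_neg]
  module

theorem sq_central (a : A) : z * z * a - a * (z * z) ∈ M3 A := by
  have : z * z * a - a * (z * z) = Br A z (Br A z a) := by
    rw [Br_odd hz, Br_odd hz]
    simp only [map_sub, map_mul, hz, inv]
    noncomm_ring
  rw [this]
  exact Lc2_le_M3 (Br_mem _ (Br_mem _ trivial))

theorem prod_M3 {p q : Bool} {a b : A} (ha : a ∈ H A p) (hb : b ∈ H A q) :
    Br A z a * Br A z b + (2 * sg true p) • (z * z * Br A a b) ∈ M3 A := by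
  have hz' : z ∈ H A true := mem_H_true.2 hz
  rw [Br_hom hz' ha, Br_hom hz' hb, Br_hom ha hb, ← pure_prod p q z a b]
  have h1 : br true (xor p (xor true q)) z (br p (xor true q) a (z * b)) ∈ M3 A := by
    rw [← Br_hom ha (mul_H hz' hb), ← Br_hom hz' (Br_H ha (mul_H hz' hb))]
    exact Lc2_le_M3 (Br_mem _ (Br_mem _ trivial))
  have h2 : br true (xor p true) z (br p true a z) * b ∈ M3 A := by
    rw [← Br_hom ha hz', ← Br_hom hz' (Br_H ha hz')]
    exact M3_mul_right _ (Lc2_le_M3 (Br_mem _ (Br_mem _ trivial)))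
  have h3 : z * br true (xor p q) z (br p q a b) ∈ M3 A := by
    rw [← Br_hom ha hb, ← Br_hom hz' (Br_H ha hb)]
    exact M3_mul_left _ (Lc2_le_M3 (Br_mem _ (Br_mem _ trivial)))
  exact Submodule.sub_mem _ (Submodule.sub_mem _ h1 h2) (Submodule.smul_of_tower_mem _ _ h3)

end gen

variable {m n : ℕ} (z : Sg m n)

/-- polynomials of given degree in a letter -/
def Wn (D : ℕ) : Submodule ℂ (FA m n) := Submodule.span ℂ (word '' {w | deg w z = D})

theorem word_Wn (w : FreeMonoid (Sg m n)) : word w ∈ Wn z (deg w z) :=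
  Submodule.subset_span ⟨w, rfl, rfl⟩

theorem Wn_le {D : ℕ} {M : Submodule ℂ (FA m n)} (h : ∀ w, deg w z = D → word w ∈ M) :
    Wn z D ≤ M := by
  refine Submodule.span_le.2 ?_
  rintro _ ⟨w, hw, rfl⟩
  exact h w hw

theorem Wn_mul {D D' : ℕ} {a b : FA m n} (ha : a ∈ Wn z D) (hb : b ∈ Wn z D') :
    a * b ∈ Wn z (D + D') := by
  have h1 : ∀ w, deg w z = D → Wn z D' ≤ (Wn z (D + D')).comap (LinearMap.mulLeft ℂ (word w)) := by
    intro w hw
    refine Wn_le z fun w' hw' => ?_
    change word w * word w' ∈ Wn z (D + D')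
    rw [← word_mul, ← hw, ← hw', ← Finsupp.add_apply, ← deg_mul]
    exact word_Wn z _
  have h2 : Wn z D ≤ (Wn z (D + D')).comap (LinearMap.mulRight ℂ b) :=
    Wn_le z fun w hw => h1 w hw hb
  exact h2 ha

theorem gi_Wn : gi z ∈ Wn z 1 := by
  have := word_Wn z (FreeMonoid.of z)
  rwa [word_of, deg_of, Finsupp.single_eq_same] at this

/-- multiples of the even power -/
def UW (D : ℕ) : Submodule ℂ (FA m n) := (Wn z D).map (LinearMap.mulLeft ℂ (uz z)) ⊔ M3 _

theorem UW_M3 {D : ℕ} {a : FA m n} (h : a ∈ M3 (FA m n)) : a ∈ UW z D :=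
  Submodule.mem_sup_right h

theorem UW_mem {D : ℕ} {a : FA m n} (h : a ∈ Wn z D) : uz z * a ∈ UW z D :=
  Submodule.mem_sup_left ⟨a, h, rfl⟩

section
variable {z} (hz : z.isRight = true)
include hz

theorem uz_odd : uz z = gi z * gi z := by simp [uz, cz, hz, sq]

theorem ep_odd : ep (gi z) = -gi z := by rw [ep_gi, hz]; simp

theorem uz_central (a : FA m n) : uz z * a - a * uz z ∈ M3 (FA m n) := by
  rw [uz_odd hz]; exact sq_central (ep_odd hz) a

theorem UW_mul_left {D D' : ℕ} {a b : FA m n} (ha : a ∈ Wn z D) (hb : b ∈ UW z D') :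
    a * b ∈ UW z (D + D') := by
  have : UW z D' ≤ (UW z (D + D')).comap (LinearMap.mulLeft ℂ a) := by
    refine sup_le ?_ fun b hb => UW_M3 z (M3_mul_left _ hb)
    rintro _ ⟨b, hb, rfl⟩
    change a * (uz z * b) ∈ UW z (D + D')
    have e : a * (uz z * b) = uz z * (a * b) - (uz z * a - a * uz z) * b := by noncomm_ring
    rw [e]
    exact Submodule.sub_mem _ (UW_mem z (Wn_mul z ha hb)) (UW_M3 z (M3_mul_right _ (uz_central hz a)))
  exact this hb

omit hz in
theorem UW_mul_right {D D' : ℕ} {a b : FA m n} (ha : a ∈ UW z D) (hb : b ∈ Wn z D') :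
    a * b ∈ UW z (D + D') := by
  have : UW z D ≤ (UW z (D + D')).comap (LinearMap.mulRight ℂ b) := by
    refine sup_le ?_ fun b hb => UW_M3 z (M3_mul_right _ hb)
    rintro _ ⟨a, ha, rfl⟩
    change uz z * a * b ∈ UW z (D + D')
    rw [mul_assoc]
    exact UW_mem z (Wn_mul z ha hb)
  exact this ha

omit hz in
theorem Br_Wn {D D' : ℕ} {a b : FA m n} {p q : Bool} (ha : a ∈ Wn z D) (hb : b ∈ Wn z D')
    (ha' : a ∈ H (FA m n) p) (hb' : b ∈ H (FA m n) q) : Br _ a b ∈ Wn z (D + D') := by
  rw [Br_hom ha' hb', br]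
  refine Submodule.sub_mem _ (Wn_mul z ha hb) (Submodule.smul_of_tower_mem _ _ ?_)
  rw [add_comm]
  exact Wn_mul z hb ha

theorem triple {w1 w2 : FreeMonoid (Sg m n)} (h1 : deg w1 z = 0) (h2 : deg w2 z = 0) :
    gi z * word w1 * gi z * word w2 * gi z ∈ UW z 1 := by
  have v1 := word_Wn z w1
  have v2 := word_Wn z w2
  have p1 := Gd_H _ (word_mem w1)
  have p2 := Gd_H _ (word_mem w2)
  have hz' : gi z ∈ H (FA m n) true := mem_H_true.2 (ep_odd hz)
  rw [h1] at v1
  rw [h2] at v2
  have c2 := Br_Wn (gi_Wn z) v2 hz' p2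
  rw [pure_triple (pd (deg w1)) (pd (deg w2)), ← Br_hom hz' p2, ← Br_hom hz' p1]
  have e1 : gi z * word w1 * (gi z * gi z) * word w2 ∈ UW z 1 := by
    rw [← uz_odd hz, mul_assoc]
    have := UW_mul_left hz (Wn_mul z (gi_Wn z) v1) (UW_mem z v2)
    rwa [add_zero, add_zero] at this
  have e2 : gi z * gi z * (word w1 * Br _ (gi z) (word w2)) ∈ UW z 1 := by
    rw [← uz_odd hz]
    have := UW_mem z (Wn_mul z v1 c2)
    rwa [add_zero, zero_add] at this
  have e3 : gi z * (Br _ (gi z) (word w1) * Br _ (gi z) (word w2)) ∈ UW z 1 := by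
    have h := UW_M3 z (D := 1) (M3_mul_left (gi z) (prod_M3 (ep_odd hz) p1 p2))
    rw [mul_add, ← uz_odd hz] at h
    have h' : gi z * ((2 * sg true (pd (deg w1))) • (uz z * Br _ (word w1) (word w2))) ∈
        UW z 1 := by
      rw [mul_smul_comm]
      refine Submodule.smul_of_tower_mem _ _ ?_
      have := UW_mul_left hz (gi_Wn z) (UW_mem z (Br_Wn v1 v2 p1 p2))
      rwa [add_zero, add_zero] at this
    exact (Submodule.add_mem_iff_left _ h').1 h
  exact Submodule.add_mem _ (Submodule.sub_mem _ (Submodule.smul_of_tower_mem _ _ e1)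
    (Submodule.smul_of_tower_mem _ _ e2)) (Submodule.smul_of_tower_mem _ _ e3)

omit hz in
/-- splitting at the first occurrence of a letter -/
theorem split_word (w : FreeMonoid (Sg m n)) {D : ℕ} (h : deg w z = D + 1) :
    ∃ w1 w2, w = w1 * (FreeMonoid.of z * w2) ∧ deg w1 z = 0 ∧ deg w2 z = D := by
  induction w using FreeMonoid.inductionOn' with
  | one => rw [deg_one] at h; simp at h
  | of_mul x w ih =>
    rw [deg_mul, deg_of, Finsupp.add_apply] at h
    by_cases hx : x = z
    · subst hx
      rw [Finsupp.single_eq_same] at h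
      exact ⟨1, w, by rw [one_mul], by rw [deg_one]; rfl, by omega⟩
    · rw [Finsupp.single_eq_of_ne (Ne.symm hx), zero_add] at h
      obtain ⟨w1, w2, rfl, h1, h2⟩ := ih h
      refine ⟨FreeMonoid.of x * w1, w2, by rw [mul_assoc], ?_, h2⟩
      rw [deg_mul, deg_of, Finsupp.add_apply, Finsupp.single_eq_of_ne (Ne.symm hx), h1]

theorem word_UW (w : FreeMonoid (Sg m n)) {D : ℕ} (h : deg w z = D + 3) :
    word w ∈ UW z (D + 1) := by
  obtain ⟨w0, w', rfl, h0, h'⟩ := split_word w h
  obtain ⟨w1, w'', rfl, h1, h''⟩ := split_word w' h'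
  obtain ⟨w2, w3, rfl, h2, h3⟩ := split_word w'' h''
  have e : word (w0 * (FreeMonoid.of z * (w1 * (FreeMonoid.of z * (w2 * (FreeMonoid.of z * w3)))))) =
      word w0 * ((gi z * word w1 * gi z * word w2 * gi z) * word w3) := by
    simp only [word_mul, word_of, mul_assoc]
  rw [e]
  have v0 := word_Wn z w0
  have v3 := word_Wn z w3
  rw [h0] at v0
  rw [h3] at v3
  have := UW_mul_left hz v0 (UW_mul_right (triple hz h1 h2) v3)
  rwa [zero_add, add_comm] at this

theorem X_Wn {D : ℕ} {a : FA m n} (ha : a ∈ Wn z D) : Good (uz z) (Xz z) a D := by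
  have h : ∀ w, Xz z (word w) - (deg w z : ℂ) • (uz z * word w) ∈ M3 (FA m n) := by
    intro w
    induction w using FreeMonoid.inductionOn' with
    | one =>
      rw [word_one, deg_one, Xz, der_one]
      simp
    | of_mul x w ih =>
      rw [word_mul, word_of, deg_mul, deg_of, Finsupp.add_apply, Xz_mul]
      have h1 : gi x * Xz z (word w) - (deg w z : ℂ) • (uz z * (gi x * word w)) ∈ M3 (FA m n) := by
        have e : gi x * Xz z (word w) - (deg w z : ℂ) • (uz z * (gi x * word w)) =
            gi x * (Xz z (word w) - (deg w z : ℂ) • (uz z * word w)) -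
            (deg w z : ℂ) • ((uz z * gi x - gi x * uz z) * word w) := by
          simp only [mul_sub, sub_mul, mul_smul_comm, mul_assoc]
          module
        rw [e]
        exact Submodule.sub_mem _ (M3_mul_left _ ih)
          (Submodule.smul_mem _ _ (M3_mul_right _ (uz_central hz _)))
      by_cases hx : x = z
      · subst hx
        rw [Finsupp.single_eq_same, Xz_gi_self]
        convert h1 using 1
        push_cast
        simp only [mul_assoc]
        module
      · rw [Finsupp.single_eq_of_ne (Ne.symm hx), Xz_gi_ne hx, zero_add, zero_mul, zero_add]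
        exact h1
  have h2 : Wn z D ≤ (M3 (FA m n)).comap (Xz z - (D : ℂ) • Lam (uz z)) := by
    refine Wn_le z fun w hw => ?_
    change Xz z (word w) - (D : ℂ) • Lam (uz z) (word w) ∈ M3 (FA m n)
    have h3 := h w
    rw [hw] at h3
    have e : Xz z (word w) - (D : ℂ) • Lam (uz z) (word w) =
        (Xz z (word w) - (D : ℂ) • (uz z * word w)) +
        ((D : ℂ) / 2) • (uz z * word w - word w * uz z) := by
      rw [Lam_apply]; module
    rw [e]
    exact Submodule.add_mem _ h3 (Submodule.smul_mem _ _ (uz_central hz _))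
  exact h2 ha

omit hz in
theorem Lam_DecS {D : ℕ} {a : FA m n} (ha : a ∈ DecS (uz z) (Xz z) D) :
    Lam (uz z) a ∈ DecS (uz z) (Xz z) (D + 2) := by
  have : DecS (uz z) (Xz z) D ≤ (DecS (uz z) (Xz z) (D + 2)).comap (Lam (uz z)) := by
    refine sup_le (Submodule.span_le.2 ?_) fun a ha => Submodule.mem_sup_right (Lam_M3 _ ha)
    rintro _ ⟨g, s, w, h1, h2, rfl⟩
    refine Submodule.mem_sup_left (Submodule.subset_span ⟨g, s + 1, w, h1, by omega, ?_⟩)
    rw [Function.iterate_succ_apply']
  exact this ha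

theorem Wn_DecS_odd (D : ℕ) : Wn z D ≤ DecS (uz z) (Xz z) D := by
  induction D using Nat.strong_induction_on with
  | _ D IH =>
    by_cases hD : D ≤ 2
    · intro a ha
      exact Submodule.mem_sup_left (Submodule.subset_span ⟨a, 0, D, X_Wn hz ha, by omega, rfl⟩)
    · obtain ⟨D, rfl⟩ : ∃ D', D = D' + 3 := ⟨D - 3, by omega⟩
      refine Wn_le z fun w hw => ?_
      have h1 := word_UW hz w hw
      refine (sup_le ?_ le_sup_right : UW z (D + 1) ≤ DecS (uz z) (Xz z) (D + 3)) h1
      rintro _ ⟨a, ha, rfl⟩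
      change uz z * a ∈ DecS (uz z) (Xz z) (D + 3)
      have e : uz z * a = Lam (uz z) a + (1/2 : ℂ) • (uz z * a - a * uz z) := by
        rw [Lam_apply]; module
      rw [e]
      exact Submodule.add_mem _ (Lam_DecS (IH (D + 1) (by omega) ha))
        (Submodule.smul_mem _ _ (Submodule.mem_sup_right (uz_central hz _)))

end

theorem word_DecS (w : FreeMonoid (Sg m n)) :
    word w ∈ DecS (uz z) (Xz z) (deg w z) := by
  cases hz : z.isRight with
  | false => exact word_DecS_even hz w
  | true => exact Wn_DecS_odd hz _ (word_Wn z w)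

end

end Pool.Agent.SuperLCS
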