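import Mathlib

set_option autoImplicit false

/-! Pure ring identities for supercommutators with explicit parities. -/

namespace Pool.Agent.SuperLCS

/-- sign of a pair of parities -/
def sg : Bool → Bool → ℤ
  | true, true => -1
  | _, _ => 1

section Pure

variable {A : Type*} [Ring A]

/-- supercommutator with explicit parities -/
def br (p q : Bool) (a b : A) : A := a * b - sg p q • (b * a)

/-- super-anticommutator with explicit parities -/
def jr (p q : Bool) (a b : A) : A := a * b + sg p q • (b * a)

theorem jacobi (p q r : Bool) (a b c : A) :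
    br p (xor q r) a (br q r b c) =
      br (xor p q) r (br p q a b) c + sg p q • br q (xor p r) b (br p r a c) := by
  cases p <;> cases q <;> cases r <;> simp [br, sg] <;> noncomm_ring

/-- `{p,[s,t]} = [{p,s},t] - chi {s,[p,t]}` -/
theorem jr_br (p s t : Bool) (a b c : A) :
    jr p (xor s t) a (br s t b c) =
      br (xor p s) t (jr p s a b) c - sg p s • jr s (xor p t) b (br p t a c) := by
  cases p <;> cases s <;> cases t <;> simp [br, jr, sg] <;> noncomm_ring

/-- `[a,{p,r}] = [{a,p},r] - chi [p,{a,r}]` -/
theorem br_jr (p s t : Bool) (a b c : A) :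
    br p (xor s t) a (jr s t b c) =
      br (xor p s) t (jr p s a b) c - sg p s • br s (xor p t) b (jr p t a c) := by
  cases p <;> cases s <;> cases t <;> simp [br, jr, sg] <;> noncomm_ring

/-- `[s,{v,f}] = {[s,v],f} + chi {v,[s,f]}` -/
theorem br_jr_der (p s t : Bool) (a b c : A) :
    br p (xor s t) a (jr s t b c) =
      jr (xor p s) t (br p s a b) c + sg p s • jr s (xor p t) b (br p t a c) := by
  cases p <;> cases s <;> cases t <;> simp [br, jr, sg] <;> noncomm_ring

theorem br_swap (p q : Bool) (a b : A) : br p q a b = -(sg p q • br q p b a) := by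
  cases p <;> cases q <;> simp [br, sg, add_comm]

theorem jr_swap (p q : Bool) (a b : A) : jr p q a b = sg p q • jr q p b a := by
  cases p <;> cases q <;> simp [jr, sg, add_comm]

end Pure

end Pool.Agent.SuperLCS
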