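import Pool.Agent.SuperLCS.OddDer

set_option autoImplicit false

/-! Degrees concentrated in one letter, and eventual constancy in odd directions. -/

namespace Pool.Agent.SuperLCS

open Par

noncomputable section

variable {m n : ℕ} (y : Sg m n)

/-- retraction to the polynomials in one letter -/
def ret : FA m n →ₐ[ℂ] FA m n := FreeAlgebra.lift ℂ fun x => if x = y then gi y else 0

theorem ret_gi (x : Sg m n) : ret y (gi x) = if x = y then gi y else 0 :=
  FreeAlgebra.lift_ι_apply _ _

theorem ret_poly (a : FA m n) : ∃ p : Polynomial ℂ, ret y a = Polynomial.aeval (gi y) p := by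
  induction a using FreeAlgebra.induction with
  | grade0 r => exact ⟨Polynomial.C r, by rw [AlgHom.commutes, Polynomial.aeval_C]⟩
  | grade1 x =>
    change ∃ p : Polynomial ℂ, ret y (gi x) = Polynomial.aeval (gi y) p
    rw [ret_gi]
    split_ifs
    · exact ⟨Polynomial.X, by rw [Polynomial.aeval_X]⟩
    · exact ⟨0, by rw [map_zero]⟩
  | mul a b ha hb =>
    obtain ⟨p, hp⟩ := ha
    obtain ⟨q, hq⟩ := hb
    exact ⟨p * q, by rw [map_mul, map_mul, hp, hq]⟩
  | add a b ha hb =>
    obtain ⟨p, hp⟩ := ha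
    obtain ⟨q, hq⟩ := hb
    exact ⟨p + q, by rw [map_add, map_add, hp, hq]⟩

theorem ret_comm (a b : FA m n) : ret y a * ret y b = ret y b * ret y a := by
  obtain ⟨p, hp⟩ := ret_poly y a
  obtain ⟨q, hq⟩ := ret_poly y b
  rw [hp, hq, ← map_mul, ← map_mul, mul_comm]

theorem ep_ret (a : FA m n) : ep (ret y a) = ret y (ep a) := by
  induction a using FreeAlgebra.induction with
  | grade0 r => simp
  | grade1 x =>
    change ep (ret y (gi x)) = ret y (ep (gi x))
    rw [ep_gi, map_smul, ret_gi]
    split_ifs with h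
    · subst h; rw [ep_gi]
    · simp
  | mul a b ha hb => rw [map_mul, map_mul, ha, hb, map_mul, map_mul]
  | add a b ha hb => rw [map_add, map_add, ha, hb, map_add, map_add]

theorem ret_H {p : Bool} {a : FA m n} (ha : a ∈ H (FA m n) p) : ret y a ∈ H (FA m n) p := by
  rw [mem_H] at ha ⊢
  rw [ep_ret, ha, map_smul]

theorem ret_Br (a b : FA m n) : ret y (Br _ a b) = Br _ (ret y a) (ret y b) := by
  simp only [Br_apply, sw, map_sub, map_smul, map_add, map_mul, ep_ret]

theorem ret_Lc {a : FA m n} (ha : a ∈ Lc (FA m n) 2) : ret y a = 0 := by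
  have : Lc (FA m n) (0 + 2) ≤ LinearMap.ker (ret y).toLinearMap := by
    refine Lc_succ_succ_le fun p q r a ha b hb c hc _ => ?_
    change ret y (Br _ a (Br _ b c)) = 0
    rw [ret_Br, ret_Br]
    have h1 := ret_H y ha
    have h2 := ret_H y hb
    have h3 := ret_H y hc
    rw [Br_hom h2 h3]
    have hcc := ret_comm y b c
    by_cases hqr : q = true ∧ r = true
    · obtain ⟨rfl, rfl⟩ := hqr
      have e : br true true (ret y b) (ret y c) = ret y (b * c + b * c) := by
        rw [br, map_add, map_mul, ← hcc]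
        simp [sg]
      have hbc : b * c ∈ H (FA m n) false := by
        have := mul_H hb hc
        rwa [Bool.xor_self] at this
      have hH : ret y (b * c + b * c) ∈ H (FA m n) false :=
        ret_H y (Submodule.add_mem _ hbc hbc)
      rw [e, Br_hom h1 hH, br, ret_comm]
      cases p <;> simp [sg]
    · have e : br q r (ret y b) (ret y c) = 0 := by
        rw [br, ← hcc]
        cases q <;> cases r <;> simp [sg] at hqr ⊢
      rw [e, map_zero]
  exact this ha

theorem ret_word {w : FreeMonoid (Sg m n)} (h : nd y (deg w) = 0) : ret y (word w) = word w := by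
  induction w using FreeMonoid.inductionOn' with
  | one => rw [word_one, map_one]
  | of_mul x w ih =>
    rw [deg_mul, deg_of, nd_add] at h
    have hx : x = y := by
      by_contra hx
      rw [nd_single_ne y hx] at h
      omega
    rw [word_mul, word_of, map_mul, ret_gi, if_pos hx, ih (by omega), hx]

theorem ret_Gd {d : Sg m n →₀ ℕ} (h : nd y d = 0) {a : FA m n} (ha : a ∈ Gd d) :
    ret y a = a := by
  have : Gd d ≤ LinearMap.eqLocus (ret y).toLinearMap LinearMap.id := by
    refine Gd_le fun w hw => ?_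
    exact ret_word y (by rw [hw]; exact h)
  exact this ha

theorem pure_bot {k : ℕ} (hk : 2 ≤ k) {d : Sg m n →₀ ℕ} (h : nd y d = 0) :
    Lc (FA m n) k ⊓ Gd d = ⊥ := by
  rw [eq_bot_iff]
  rintro x ⟨h1, h2⟩
  rw [Submodule.mem_bot, ← ret_Gd y h h2]
  exact ret_Lc y (Lc_anti' hk h1)

theorem hd_pure {k : ℕ} (hk : 2 ≤ k) {d : Sg m n →₀ ℕ} (h : nd y d = 0) : hd m n k d = 0 := by
  rw [hd, pure_bot y hk h, pure_bot y (by omega) h]
  simp

/-! ### one-dimensional lemma -/

theorem eventually_const {a : ℕ → ℤ} (h0 : ∀ b, 0 ≤ a b) (N : ℕ)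
    (hm : ∀ b, N ≤ b → a (b + 1) ≤ a b) : ∃ M, ∀ b, M ≤ b → a (b + 1) = a b := by
  have hanti : Antitone fun b => (a (N + b)).toNat := by
    refine antitone_nat_of_succ_le fun b => ?_
    exact Int.toNat_le_toNat (hm (N + b) (by omega))
  obtain ⟨M, hM⟩ := WellFounded.min_mem (wellFounded_lt (α := ℕ))
    (Set.range fun b => (a (N + b)).toNat) ⟨_, ⟨0, rfl⟩⟩
  refine ⟨N + M, fun b hb => ?_⟩
  have key : ∀ c, M ≤ c → (a (N + c)).toNat = (a (N + M)).toNat := by
    intro c hc
    apply le_antisymm (hanti hc)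
    have h := WellFounded.not_lt_min (wellFounded_lt (α := ℕ))
      (Set.range fun b => (a (N + b)).toNat) (x := (a (N + c)).toNat) ⟨c, rfl⟩
    rw [← hM] at h
    exact not_lt.1 h
  have h1 := key (b - N) (by omega)
  have h2 := key (b - N + 1) (by omega)
  rw [show N + (b - N) = b by omega] at h1
  rw [show N + (b - N + 1) = b + 1 by omega] at h2
  have := h0 b
  have := h0 (b + 1)
  omega

theorem oneD {a κ : ℕ → ℤ} (hκ : ∀ b, 0 ≤ κ b) (hrec : ∀ b, a (b + 1) = κ (b + 1) + κ b)
    (h0 : ∀ b, 0 ≤ a b) (N : ℕ) (hm : ∀ b, N ≤ b → a (b + 2) ≤ a b) :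
    ∃ M, ∀ b, M ≤ b → a (b + 1) = a b := by
  obtain ⟨M0, h2⟩ := eventually_const (a := fun b => a (2 * b)) (fun b => h0 _) N
    (fun b hb => by
      have := hm (2 * b) (by omega)
      rwa [show 2 * b + 2 = 2 * (b + 1) by ring] at this)
  obtain ⟨M1, h3⟩ := eventually_const (a := fun b => a (2 * b + 1)) (fun b => h0 _) N
    (fun b hb => by
      have := hm (2 * b + 1) (by omega)
      rwa [show 2 * b + 1 + 2 = 2 * (b + 1) + 1 by ring] at this)
  have hper : ∀ b, 2 * M0 + 2 * M1 + 2 ≤ b → a (b + 2) = a b := by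
    intro b hb
    rcases Nat.even_or_odd' b with ⟨c, rfl | rfl⟩
    · have := h2 c (by omega)
      simpa [mul_add] using this
    · have := h3 c (by omega)
      simpa [mul_add, add_right_comm] using this
  refine ⟨2 * M0 + 2 * M1 + 2, fun b hb => ?_⟩
  set δ := a (b + 2) - a (b + 1) with hδ
  have hk : ∀ t : ℕ, κ (b + 2 * t) = κ b + t * δ ∧ a (b + 2 * t) = a b ∧
      a (b + 2 * t + 1) = a (b + 1) := by
    intro t
    induction t with
    | zero => simp
    | succ t ih =>
      obtain ⟨i1, i2, i3⟩ := ih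
      have r1 := hrec (b + 2 * t)
      have r2 := hrec (b + 2 * t + 1)
      have p1 := hper (b + 2 * t) (by omega)
      have p2 := hper (b + 2 * t + 1) (by omega)
      have p3 := hper b hb
      have e1 : b + 2 * (t + 1) = b + 2 * t + 2 := by ring
      rw [e1]
      refine ⟨?_, by rw [p1, i2], by rw [show b + 2 * t + 2 + 1 = b + 2 * t + 1 + 2 by ring, p2, i3]⟩
      rw [show b + 2 * t + 1 + 1 = b + 2 * t + 2 by ring] at r2
      push_cast
      rw [hδ, p3]
      have : κ (b + 2 * t + 2) = a (b + 2 * t + 2) - κ (b + 2 * t + 1) := by rw [r2]; ring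
      rw [this, p1, i2]
      have : κ (b + 2 * t + 1) = a (b + 1) - κ (b + 2 * t) := by rw [← i3, r1]; ring
      rw [this, i1, hδ, p3]
      ring
  have p3 := hper b hb
  rcases lt_trichotomy δ 0 with h | h | h
  · exfalso
    have h1 := (hk ((κ b).toNat + 1)).1
    have h2 := hκ (b + 2 * ((κ b).toNat + 1))
    have h4 := hκ b
    rw [h1] at h2
    push_cast at h2
    rw [Int.toNat_of_nonneg h4] at h2
    nlinarith
  · omega
  · exfalso
    obtain ⟨h1, -, h5⟩ := hk ((a (b + 1)).toNat + 1)
    have h2 := hrec (b + 2 * ((a (b + 1)).toNat + 1))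
    rw [h5, h1] at h2
    have h3 := hκ (b + 2 * ((a (b + 1)).toNat + 1) + 1)
    have h4 := hκ b
    have h6 := h0 (b + 1)
    push_cast at h2
    rw [Int.toNat_of_nonneg h6] at h2
    nlinarith

variable {y} in
theorem hd_const (hy : y.isRight = true) (k : ℕ) (hk : 1 ≤ k) (d : Sg m n →₀ ℕ) :
    ∃ M, ∀ b, M ≤ b → hd m n (k + 1) (d + Finsupp.single y (b + 1)) =
      hd m n (k + 1) (d + Finsupp.single y b) := by
  by_cases h : nd y d = 0
  · refine ⟨0, fun b _ => ?_⟩
    rw [hd_pure y (by omega) (by rw [nd_add, h, nd_single_self]),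
      hd_pure y (by omega) (by rw [nd_add, h, nd_single_self])]
  · obtain ⟨N, hN⟩ := hd_step y k
    refine oneD (a := fun b => hd m n (k + 1) (d + Finsupp.single y b))
      (κ := fun b => kd y (k + 1) (d + Finsupp.single y b)) (fun b => kd_nonneg hy _ _) ?_
      (fun b => hd_nonneg _ _) N ?_
    · intro b
      have := hd_eq_kd hy (k + 1) (d := d + Finsupp.single y b) (by
        rw [nd_add, nd_single_self]; simpa using h)
      rwa [add_assoc, ← Finsupp.single_add] at this
    · intro b hb
      have := hN (d + Finsupp.single y b) (by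
        rw [Finsupp.add_apply, Finsupp.single_eq_same]; omega)
      rw [add_assoc, ← Finsupp.single_add] at this
      have hc : cz y = 2 := by simp [cz, hy]
      rwa [hc] at this

end

end Pool.Agent.SuperLCS
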