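import Mathlib

set_option autoImplicit false

/-! The shift lemma: functions of a multi-index satisfying a derivation relation, for which the
differences of neighbouring shifts are nilpotent, vanish for large multi-indices. -/

namespace Pool.Agent.SuperLCS

variable {k : ℕ} {Q : Type*} [AddCommGroup Q]

/-- difference of neighbouring shifts -/
def Dj (j : Fin k) (f : (Fin (k + 1) → ℕ) → Q) : (Fin (k + 1) → ℕ) → Q :=
  fun s => f (s + Pi.single j.castSucc 1) - f (s + Pi.single j.succ 1)

theorem Dj_zero (j : Fin k) : Dj j (0 : (Fin (k + 1) → ℕ) → Q) = 0 := by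
  funext s; simp [Dj]

theorem Dj_comm (i j : Fin k) : Function.Commute (Dj (Q := Q) i) (Dj j) := by
  intro f
  funext s
  simp only [Dj]
  rw [add_right_comm s (Pi.single j.castSucc 1) (Pi.single i.castSucc 1),
    add_right_comm s (Pi.single j.castSucc 1) (Pi.single i.succ 1),
    add_right_comm s (Pi.single j.succ 1) (Pi.single i.castSucc 1),
    add_right_comm s (Pi.single j.succ 1) (Pi.single i.succ 1)]
  abel

theorem Dj_iter_zero (j : Fin k) (n : ℕ) : (Dj j)^[n] (0 : (Fin (k + 1) → ℕ) → Q) = 0 := by
  induction n with
  | zero => rfl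
  | succ n ih => rw [Function.iterate_succ_apply, Dj_zero, ih]

variable [Module ℂ Q]

theorem sum_single_add (c : ℕ) (w : Fin (k + 1) → ℕ) (a : Fin (k + 1)) (F : Fin (k + 1) → Q) :
    ∑ i, ((w i + c * (Pi.single a 1 : Fin (k + 1) → ℕ) i : ℕ) : ℂ) • F i =
      ∑ i, ((w i : ℕ) : ℂ) • F i + (c : ℂ) • F a := by
  have : ∀ i, ((w i + c * (Pi.single a 1 : Fin (k + 1) → ℕ) i : ℕ) : ℂ) • F i =
      ((w i : ℕ) : ℂ) • F i + (if i = a then (c : ℂ) • F i else 0) := by
    intro i
    by_cases h : i = a
    · subst h; simp [add_smul]
    · simp [h]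
  rw [Finset.sum_congr rfl fun i _ => this i, Finset.sum_add_distrib]
  simp

theorem shift (c : ℕ) (hc : 0 < c) (n : ℕ) : ∀ (nn : Fin k → ℕ), ∑ j, nn j = n →
    ∀ (w : Fin (k + 1) → ℕ) (f : (Fin (k + 1) → ℕ) → Q), (∀ j, (Dj j)^[nn j] f = 0) →
    (∀ s : Fin (k + 1) → ℕ, ∑ i, ((w i + c * s i : ℕ) : ℂ) • f (s + Pi.single i 1) = 0) →
    ∀ (s : Fin (k + 1) → ℕ), n + 2 ≤ ∑ i, s i → f s = 0 := by
  induction n using Nat.strong_induction_on with
  | _ n IH =>
    intro nn hn w f hD hrel s hs
    obtain ⟨i0, hi0⟩ : ∃ i0, s i0 ≠ 0 := by
      by_contra h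
      push Not at h
      have : ∑ i, s i = 0 := Finset.sum_eq_zero fun i _ => h i
      omega
    obtain ⟨s', rfl⟩ : ∃ s' : Fin (k + 1) → ℕ, s = s' + Pi.single i0 1 := by
      refine ⟨s - Pi.single i0 1, ?_⟩
      funext i
      by_cases h : i = i0
      · subst h; simp only [Pi.add_apply, Pi.sub_apply, Pi.single_eq_same]; omega
      · simp [h]
    have hs' : n + 1 ≤ ∑ i, s' i := by
      have h1 : ∑ i, (Pi.single i0 1 : Fin (k + 1) → ℕ) i = 1 := by simp
      have h2 : ∑ i, (s' + Pi.single i0 1 : Fin (k + 1) → ℕ) i =
          ∑ i, s' i + ∑ i, (Pi.single i0 1 : Fin (k + 1) → ℕ) i :=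
        Finset.sum_add_distrib
      omega
    have step : ∀ j : Fin k, f (s' + Pi.single j.castSucc 1) = f (s' + Pi.single j.succ 1) := by
      intro j
      by_cases hj : nn j = 0
      · have := hD j
        rw [hj] at this
        change f = 0 at this
        rw [this]; rfl
      · have hn1 : 1 ≤ n := by
          rw [← hn]
          exact le_trans (by omega) (Finset.single_le_sum (f := nn) (fun _ _ => Nat.zero_le _)
            (Finset.mem_univ j))
        have hsum : ∑ i, (Function.update nn j (nn j - 1)) i = n - 1 := by
          rw [Finset.sum_update_of_mem (Finset.mem_univ j)]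
          have := Finset.add_sum_erase Finset.univ nn (Finset.mem_univ j)
          rw [Finset.sdiff_singleton_eq_erase]
          omega
        have := IH (n - 1) (by omega) (Function.update nn j (nn j - 1)) hsum
          (fun i => w i + c * (Pi.single j.castSucc 1 : Fin (k + 1) → ℕ) i +
            c * (Pi.single j.succ 1 : Fin (k + 1) → ℕ) i) (Dj j f) ?_ ?_ s' (by omega)
        · exact sub_eq_zero.1 this
        · intro i
          by_cases hij : i = j
          · subst hij
            rw [Function.update_self, ← Function.iterate_succ_apply]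
            have := hD i
            rwa [show nn i = (nn i - 1).succ by omega] at this
          · rw [Function.update_of_ne hij]
            have h1 := (Dj_comm (Q := Q) i j).iterate_left (nn i) f
            rw [h1, hD i, Dj_zero]
        · intro s
          have h1 := hrel (s + Pi.single j.castSucc 1)
          have h2 := hrel (s + Pi.single j.succ 1)
          simp only [Pi.add_apply, mul_add, ← add_assoc] at h1 h2
          rw [sum_single_add c (fun i => w i + c * s i)] at h1 h2
          have e : ∀ i, w i + c * (Pi.single j.castSucc 1 : Fin (k + 1) → ℕ) i +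
            c * (Pi.single j.succ 1 : Fin (k + 1) → ℕ) i + c * s i =
            (w i + c * s i) + c * (Pi.single j.castSucc 1 : Fin (k + 1) → ℕ) i +
            c * (Pi.single j.succ 1 : Fin (k + 1) → ℕ) i := fun i => by ring
          simp only [e]
          rw [sum_single_add c (fun i => w i + c * s i +
            c * (Pi.single j.castSucc 1 : Fin (k + 1) → ℕ) i), sum_single_add c (fun i => w i + c * s i)]
          simp only [Dj, smul_sub, Finset.sum_sub_distrib]
          have c1 : ∀ i, s + Pi.single j.castSucc 1 + Pi.single i 1 =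
            s + Pi.single i 1 + Pi.single j.castSucc 1 := fun i => add_right_comm _ _ _
          have c2 : ∀ i, s + Pi.single j.succ 1 + Pi.single i 1 =
            s + Pi.single i 1 + Pi.single j.succ 1 := fun i => add_right_comm _ _ _
          simp only [c1] at h1
          simp only [c2] at h2
          rw [c1 j.succ]
          linear_combination (norm := module) h1 - h2
    have all : ∀ i : Fin (k + 1), f (s' + Pi.single i 1) = f (s' + Pi.single 0 1) := by
      intro i
      induction i using Fin.induction with
      | zero => rfl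
      | succ j ih => rw [← step j, ih]
    have h := hrel s'
    rw [Finset.sum_congr rfl fun i _ => by rw [all i], ← Finset.sum_smul] at h
    rw [all]
    rcases smul_eq_zero.1 h with h | h
    · exfalso
      rw [← Nat.cast_sum] at h
      have h : ∑ i, (w i + c * s' i) = 0 := by exact_mod_cast h
      rw [Finset.sum_add_distrib, ← Finset.mul_sum] at h
      have : 0 < c * ∑ i, s' i := Nat.mul_pos hc (by omega)
      omega
    · exact h

end Pool.Agent.SuperLCS
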