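import Pool.Agent.SuperLCS.Cube
import Pool.Agent.SuperLCS.Shift

set_option autoImplicit false

/-! Iterated brackets with multiplied entries, and the surjectivity of the derivation. -/

namespace Pool.Agent.SuperLCS

open Par

noncomputable section

variable {A : Type*} [Ring A] [Algebra ℂ A] [Par A]

/-- iterated bracket with entries multiplied -/
def nest (u : A) : (k : ℕ) → (Fin (k + 1) → A) → (Fin (k + 1) → ℕ) → A
  | 0, g, s => (Lam u)^[s 0] (g 0)
  | k + 1, g, s => Br A ((Lam u)^[s 0] (g 0)) (nest u k (fun i => g i.succ) (fun i => s i.succ))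

theorem nest_mem (u : A) (k : ℕ) (g : Fin (k + 1) → A) (s : Fin (k + 1) → ℕ) :
    nest u k g s ∈ Lc A k := by
  induction k with
  | zero => trivial
  | succ k ih => exact Br_mem _ (ih _ _)

omit [Ring A] [Algebra ℂ A] [Par A] in
theorem add_single_ne {k : ℕ} (s : Fin k → ℕ) {a b : Fin k} (h : b ≠ a) :
    (s + Pi.single a 1 : Fin k → ℕ) b = s b := by
  rw [Pi.add_apply, Pi.single_eq_of_ne h]; rfl

omit [Ring A] [Algebra ℂ A] [Par A] in
theorem add_single_self {k : ℕ} (s : Fin k → ℕ) (a : Fin k) :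
    (s + Pi.single a 1 : Fin k → ℕ) a = s a + 1 := by
  rw [Pi.add_apply, Pi.single_eq_same]

omit [Par A] in
theorem iter_D0 {k : ℕ} (u g0 g1 : A) (n : ℕ) (F : (Fin (k + 2) → ℕ) → A)
    (E : (Fin k → ℕ) → A → A → A)
    (hF : ∀ s, F s = E (fun i => s i.succ.succ) ((Lam u)^[s 0] g0) ((Lam u)^[s 1] g1))
    (s : Fin (k + 2) → ℕ) :
    (Dj 0)^[n] F s =
      (DD u)^[n] (E (fun i => s i.succ.succ)) ((Lam u)^[s 0] g0) ((Lam u)^[s 1] g1) := by
  induction n generalizing F E with
  | zero => exact hF s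
  | succ n ih =>
    rw [Function.iterate_succ_apply, Function.iterate_succ_apply]
    refine ih (Dj 0 F) (fun t => DD u (E t)) ?_
    intro s
    simp only [Dj, DD, hF]
    have e0 : ∀ i : Fin k, (s + Pi.single (Fin.castSucc 0) 1 : Fin (k + 2) → ℕ) i.succ.succ =
        s i.succ.succ := fun i => add_single_ne s (Fin.succ_ne_zero _)
    have e1 : ∀ i : Fin k, (s + Pi.single (Fin.succ 0) 1 : Fin (k + 2) → ℕ) i.succ.succ =
        s i.succ.succ := fun i => add_single_ne s
          fun h => Fin.succ_ne_zero _ (Fin.succ_injective _ h)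
    simp only [e0, e1]
    have a0 : (s + Pi.single (Fin.castSucc 0) 1 : Fin (k + 2) → ℕ) 0 = s 0 + 1 :=
      add_single_self s 0
    have a1 : (s + Pi.single (Fin.castSucc 0) 1 : Fin (k + 2) → ℕ) 1 = s 1 :=
      add_single_ne s (by simp)
    have b0 : (s + Pi.single (Fin.succ 0) 1 : Fin (k + 2) → ℕ) 0 = s 0 :=
      add_single_ne s (Fin.succ_ne_zero 0).symm
    have b1 : (s + Pi.single (Fin.succ 0) 1 : Fin (k + 2) → ℕ) 1 = s 1 + 1 :=
      add_single_self s 1
    rw [a0, a1, b0, b1, Function.iterate_succ_apply', Function.iterate_succ_apply']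

theorem tail_single {k : ℕ} (s : Fin (k + 1) → ℕ) (a : Fin k) :
    (fun i : Fin k => (s + Pi.single a.succ 1 : Fin (k + 1) → ℕ) i.succ) =
      (fun i => s i.succ) + Pi.single a 1 := by
  funext i
  by_cases h : i = a
  · subst h
    rw [add_single_self, add_single_self]
  · rw [add_single_ne _ h, add_single_ne]
    exact fun h' => h (Fin.succ_injective _ h')

theorem tail_single_zero {k : ℕ} (s : Fin (k + 1) → ℕ) :
    (fun i : Fin k => (s + Pi.single 0 1 : Fin (k + 1) → ℕ) i.succ) =
      (fun i => s i.succ) := by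
  funext i
  exact add_single_ne _ (Fin.succ_ne_zero _)

theorem iter_Dsucc {k : ℕ} (u g0 : A) (j : Fin k) (n : ℕ) (F : (Fin (k + 2) → ℕ) → A)
    (F' : (Fin (k + 1) → ℕ) → A)
    (hF : ∀ s, F s = Br A ((Lam u)^[s 0] g0) (F' (fun i => s i.succ)))
    (s : Fin (k + 2) → ℕ) :
    (Dj j.succ)^[n] F s = Br A ((Lam u)^[s 0] g0) ((Dj j)^[n] F' (fun i => s i.succ)) := by
  induction n generalizing F F' with
  | zero => exact hF s
  | succ n ih =>
    rw [Function.iterate_succ_apply, Function.iterate_succ_apply]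
    refine ih (Dj j.succ F) (Dj j F') ?_
    intro s
    simp only [Dj, hF, map_sub]
    have a0 : (s + Pi.single j.succ.castSucc 1 : Fin (k + 2) → ℕ) 0 = s 0 :=
      add_single_ne s (Fin.succ_ne_zero j.castSucc).symm
    have b0 : (s + Pi.single j.succ.succ 1 : Fin (k + 2) → ℕ) 0 = s 0 :=
      add_single_ne s (Fin.succ_ne_zero j.succ).symm
    rw [a0, b0, tail_single s j.succ]
    have := tail_single s j.castSucc
    rw [Fin.succ_castSucc] at this
    rw [this]

section
variable {u : A} (hu : ep u = u)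
include hu

theorem nest_D3 (k : ℕ) (j : Fin k) (g : Fin (k + 1) → A) (s : Fin (k + 1) → ℕ) :
    (Dj j)^[3] (nest u k g) s ∈ Lc A (k + 1) := by
  induction k with
  | zero => exact j.elim0
  | succ k ih =>
    induction j using Fin.cases with
    | succ j =>
      rw [iter_Dsucc u (g 0) j 3 (nest u (k + 1) g) (nest u k (fun i => g i.succ)) (fun s => rfl)]
      exact Br_mem _ (ih _ _ _)
    | zero =>
      match k, g, s with
      | 0, g, s =>
        rw [iter_D0 u (g 0) (g 1) 3 (nest u 1 g) (fun _ a b => Br A a b) (fun s => rfl)]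
        exact DD3_mem_last hu _ _
      | k + 1, g, s =>
        rw [iter_D0 u (g 0) (g 1) 3 (nest u (k + 2) g)
          (fun t a b => Br A a (Br A b (nest u k (fun i => g i.succ.succ) t))) (fun s => rfl)]
        exact DD3_mem hu (nest_mem _ _ _ _) _ _

end

variable (A) in
/-- error term -/
def Err : ℕ → Submodule ℂ A
  | 0 => M3 A
  | k + 1 => Lc A (k + 2)

theorem Br_Err (a : A) {k : ℕ} {b : A} (hb : b ∈ Err A k) : Br A a b ∈ Err A (k + 1) := by
  cases k with
  | zero => exact Br_M3 a hb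
  | succ k => exact Br_mem a hb

/-- data of a derivation shifting degrees -/
structure Shiftor (u : A) (X : A →ₗ[ℂ] A) (c : ℕ) : Prop where
  hu : ep u = u
  der : ∀ a b, X (Br A a b) = Br A (X a) b + Br A a (X b)
  comm : ∀ a, X (Lam u a) - Lam u (X a) - (c : ℂ) • Lam u (Lam u a) ∈ M3 A

/-- weight condition -/
def Good (u : A) (X : A →ₗ[ℂ] A) (g : A) (w : ℕ) : Prop := X g - (w : ℂ) • Lam u g ∈ M3 A

theorem Lam_M3 (u : A) {m : A} (hm : m ∈ M3 A) : Lam u m ∈ M3 A :=
  Submodule.smul_mem _ _ (Submodule.add_mem _ (M3_mul_left u hm) (M3_mul_right u hm))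

variable {u : A} {X : A →ₗ[ℂ] A} {c : ℕ} (hX : Shiftor u X c)
include hX

theorem X_iter {g : A} {w : ℕ} (hg : Good u X g w) (s : ℕ) :
    X ((Lam u)^[s] g) - ((w + c * s : ℕ) : ℂ) • Lam u ((Lam u)^[s] g) ∈ M3 A := by
  induction s with
  | zero => simpa [Good] using hg
  | succ s ih =>
    rw [Function.iterate_succ_apply']
    have h1 := hX.comm ((Lam u)^[s] g)
    have h2 := Lam_M3 u ih
    rw [map_sub, map_smul] at h2
    have := Submodule.add_mem _ h1 h2
    convert this using 1
    push_cast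
    module

theorem nest_rel (k : ℕ) (g : Fin (k + 1) → A) (w : Fin (k + 1) → ℕ)
    (hg : ∀ i, Good u X (g i) (w i)) (s : Fin (k + 1) → ℕ) :
    X (nest u k g s) - ∑ i, ((w i + c * s i : ℕ) : ℂ) • nest u k g (s + Pi.single i 1) ∈
      Err A k := by
  induction k with
  | zero =>
    have := X_iter hX (hg 0) (s 0)
    rw [Fin.sum_univ_succ]
    simp only [Finset.univ_eq_empty, Finset.sum_empty, add_zero, nest]
    rw [add_single_self, Function.iterate_succ_apply']
    exact this
  | succ k ih =>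
    have h1 := X_iter hX (hg 0) (s 0)
    have h2 := ih (fun i => g i.succ) (fun i => w i.succ) (fun i => hg i.succ) (fun i => s i.succ)
    have h3 := M3_Br h1 (nest_mem u k (fun i => g i.succ) (fun i => s i.succ))
    have h4 := Br_Err ((Lam u)^[s 0] (g 0)) h2
    have h5 := Submodule.add_mem _ h3 h4
    change X (Br A ((Lam u)^[s 0] (g 0)) (nest u k (fun i => g i.succ) (fun i => s i.succ))) - _ ∈ Lc A (k + 2)
    rw [hX.der, Fin.sum_univ_succ]
    convert h5 using 1
    simp only [nest, tail_single, tail_single_zero, add_single_self, Function.iterate_succ_apply']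
    have e : ∀ i : Fin (k + 1), (s + Pi.single i.succ 1 : Fin (k + 2) → ℕ) 0 = s 0 :=
      fun i => add_single_ne s (Fin.succ_ne_zero i).symm
    simp only [e, map_sub, map_smul, map_sum, LinearMap.sub_apply, LinearMap.smul_apply]
    abel

theorem nest_vanish (hc : 0 < c) (k : ℕ) (g : Fin (k + 2) → A) (w : Fin (k + 2) → ℕ)
    (hg : ∀ i, Good u X (g i) (w i)) (s : Fin (k + 2) → ℕ) (hs : 3 * (k + 1) + 2 ≤ ∑ i, s i) :
    nest u (k + 1) g s ∈ (Lc A (k + 1)).map X ⊔ Lc A (k + 2) := by
  rw [← Submodule.Quotient.mk_eq_zero]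
  set M := (Lc A (k + 1)).map X ⊔ Lc A (k + 2) with hM
  have hmem : ∀ x ∈ Lc A (k + 2), (Submodule.Quotient.mk x : A ⧸ M) = 0 := fun x hx =>
    (Submodule.Quotient.mk_eq_zero _).2 (le_sup_right (a := (Lc A (k + 1)).map X) hx)
  refine shift c hc (3 * (k + 1)) (fun _ : Fin (k + 1) => 3) (by simp [mul_comm]) w
    (fun s => (Submodule.Quotient.mk (nest u (k + 1) g s) : A ⧸ M)) ?_ ?_ s hs
  · intro j
    have e : ∀ n, (Dj j)^[n] (fun s => (Submodule.Quotient.mk (nest u (k + 1) g s) : A ⧸ M)) =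
        fun s => (Submodule.Quotient.mk ((Dj j)^[n] (nest u (k + 1) g) s) : A ⧸ M) := by
      intro n
      induction n with
      | zero => rfl
      | succ n ih =>
        rw [Function.iterate_succ_apply', ih]
        funext s
        simp only [Dj, Function.iterate_succ_apply', Submodule.Quotient.mk_sub]
    rw [e]
    funext s
    exact hmem _ (nest_D3 hX.hu _ _ _ _)
  · intro s
    have h := nest_rel hX (k + 1) g w hg s
    have h0 : (Submodule.Quotient.mk (X (nest u (k + 1) g s)) : A ⧸ M) = 0 :=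
      (Submodule.Quotient.mk_eq_zero _).2 (le_sup_left (b := Lc A (k + 2))
        (Submodule.mem_map_of_mem (nest_mem _ _ _ _)))
    have h1 := hmem _ h
    rw [Submodule.Quotient.mk_sub, h0, zero_sub, neg_eq_zero] at h1
    simpa only [Submodule.mkQ_apply, map_sum, map_smul] using
      (map_sum M.mkQ (fun i => ((w i + c * s i : ℕ) : ℂ) • nest u (k + 1) g (s + Pi.single i 1))
        Finset.univ).symm.trans h1

end

end Pool.Agent.SuperLCS
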