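import Pool.Agent.SuperLCS.Slots

set_option autoImplicit false

/-! Spans of iterated brackets with multiplied entries. -/

namespace Pool.Agent.SuperLCS

open Par

noncomputable section

variable {A : Type*} [Ring A] [Algebra ℂ A] [Par A]

/-- iterated brackets with large multi-index -/
def FS (u : A) (X : A →ₗ[ℂ] A) (k D : ℕ) : Set A :=
  {x | ∃ (g : Fin (k + 1) → A) (s : Fin (k + 1) → ℕ) (w : Fin (k + 1) → ℕ),
    (∀ i, Good u X (g i) (w i)) ∧ D ≤ 2 * ∑ i, s i + 2 * (k + 1) ∧ x = nest u k g s}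

/-- decomposable elements -/
def DecS (u : A) (X : A →ₗ[ℂ] A) (D : ℕ) : Submodule ℂ A :=
  Submodule.span ℂ {x | ∃ (g : A) (s w : ℕ), Good u X g w ∧ D ≤ 2 * s + 2 ∧ x = (Lam u)^[s] g} ⊔ M3 A

theorem DecS_eq (u : A) (X : A →ₗ[ℂ] A) (D : ℕ) :
    DecS u X D = Submodule.span ℂ (FS u X 0 D) ⊔ Err A 0 := by
  have : {x | ∃ (g : A) (s w : ℕ), Good u X g w ∧ D ≤ 2 * s + 2 ∧ x = (Lam u)^[s] g} =
      FS u X 0 D := by
    ext x
    constructor
    · rintro ⟨g, s, w, h1, h2, h3⟩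
      exact ⟨fun _ => g, fun _ => s, fun _ => w, fun _ => h1, by simpa using h2, by simpa [nest] using h3⟩
    · rintro ⟨g, s, w, h1, h2, h3⟩
      exact ⟨g 0, s 0, w 0, h1 0, by simpa using h2, by simpa [nest] using h3⟩
  rw [DecS, this]; rfl

theorem FS_step {u : A} {X : A →ₗ[ℂ] A} {k D1 D2 : ℕ} {a b : A} (ha : a ∈ DecS u X D1)
    (hb : b ∈ Submodule.span ℂ (FS u X k D2) ⊔ Err A k) (hb' : b ∈ Lc A k) :
    Br A a b ∈ Submodule.span ℂ (FS u X (k + 1) (D1 + D2)) ⊔ Err A (k + 1) := by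
  obtain ⟨a1, ha1, m, hm, rfl⟩ := Submodule.mem_sup.1 ha
  rw [map_add, LinearMap.add_apply]
  refine Submodule.add_mem _ ?_ (Submodule.mem_sup_right (M3_Br hm hb'))
  obtain ⟨b1, hb1, e, he, rfl⟩ := Submodule.mem_sup.1 hb
  rw [map_add]
  refine Submodule.add_mem _ (Submodule.mem_sup_left ?_) (Submodule.mem_sup_right (Br_Err _ he))
  have := Submodule.apply_mem_map₂ (Br A) ha1 hb1
  rw [Submodule.map₂_span_span] at this
  refine Submodule.span_mono ?_ this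
  rintro _ ⟨x, ⟨g, s, w, h1, h2, rfl⟩, y, ⟨g', s', w', h1', h2', rfl⟩, rfl⟩
  refine ⟨Fin.cons g g', Fin.cons s s', Fin.cons w w', ?_, ?_, ?_⟩
  · intro i
    induction i using Fin.cases with
    | zero => simpa using h1
    | succ i => simpa using h1' i
  · rw [Fin.sum_univ_succ]
    simp only [Fin.cons_zero, Fin.cons_succ]
    omega
  · simp only [nest, Fin.cons_zero, Fin.cons_succ]

theorem FS_vanish {u : A} {X : A →ₗ[ℂ] A} {c : ℕ} (hX : Shiftor u X c) (hc : 0 < c) {k D : ℕ}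
    (hD : 2 * (3 * (k + 1) + 2) + 2 * (k + 2) ≤ D) :
    Submodule.span ℂ (FS u X (k + 1) D) ⊔ Err A (k + 1) ≤
      (Lc A (k + 1)).map X ⊔ Lc A (k + 2) := by
  refine sup_le (Submodule.span_le.2 ?_) le_sup_right
  rintro _ ⟨g, s, w, h1, h2, rfl⟩
  have h2' : D ≤ 2 * ∑ i : Fin (k + 2), s i + 2 * (k + 2) := h2
  exact nest_vanish hX hc k g w h1 s (by omega)

end

end Pool.Agent.SuperLCS
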