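import Pool.Agent.SuperLCS.OddLetter

set_option autoImplicit false

/-! Surjectivity of the letter derivation in high degree, and its consequence on dimensions. -/

namespace Pool.Agent.SuperLCS

open Par

noncomputable section

variable {m n : ℕ}

theorem Lc_inf_le_FS (z : Sg m n) (k : ℕ) (d : Sg m n →₀ ℕ) :
    Lc (FA m n) k ⊓ Gd d ≤
      Submodule.span ℂ (FS (uz z) (Xz z) k (d z)) ⊔ Err (FA m n) k := by
  induction k generalizing d with
  | zero =>
    rw [← DecS_eq]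
    intro x hx
    refine (Gd_le fun w hw => ?_ : Gd d ≤ DecS (uz z) (Xz z) (d z)) hx.2
    rw [← hw]
    exact word_DecS z w
  | succ k ih =>
    refine Lc_succ_inf_le fun w d' b hb hb' hd => ?_
    have h1 := word_DecS z w
    have h2 := ih d' ⟨hb, hb'⟩
    have h3 := FS_step h1 h2 hb
    rw [← hd, Finsupp.add_apply]
    exact h3

/-- surjectivity in high degree -/
theorem X_surj (z : Sg m n) (k : ℕ) : ∃ N, ∀ d : Sg m n →₀ ℕ, N ≤ d z →
    Lc (FA m n) (k + 1) ⊓ Gd (d + Finsupp.single z (cz z)) ≤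
      (Lc (FA m n) (k + 1) ⊓ Gd d).map (Xz z) ⊔
        (Lc (FA m n) (k + 2) ⊓ Gd (d + Finsupp.single z (cz z))) := by
  refine ⟨2 * (3 * (k + 1) + 2) + 2 * (k + 2), fun d hd => ?_⟩
  refine graded_surj (Xz_Gd z) ?_
  refine le_trans (Lc_inf_le_FS z (k + 1) _) (FS_vanish (shiftor z) (cz_pos z) ?_)
  rw [Finsupp.add_apply]
  omega

/-! ### linear algebra -/

section linalg
variable {E : Type*} [AddCommGroup E] [Module ℂ E]

theorem finrank_map_ker (T : E →ₗ[ℂ] E) (U : Submodule ℂ E) [FiniteDimensional ℂ U] :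
    Module.finrank ℂ (U.map T) + Module.finrank ℂ (U ⊓ LinearMap.ker T : Submodule ℂ E) =
      Module.finrank ℂ U := by
  rw [← (T.domRestrict U).finrank_range_add_finrank_ker, LinearMap.range_domRestrict]
  congr 1
  rw [LinearMap.ker_domRestrict]
  exact ((Submodule.equivSubtypeMap U ((LinearMap.ker T).comap U.subtype)).trans
    (LinearEquiv.ofEq _ _ (Submodule.map_comap_subtype U (LinearMap.ker T)))).finrank_eq.symm

theorem dim_formula (T : E →ₗ[ℂ] E) (U W : Submodule ℂ E) [FiniteDimensional ℂ U]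
    [FiniteDimensional ℂ W] :
    Module.finrank ℂ U + Module.finrank ℂ W =
      Module.finrank ℂ (U ⊓ W.comap T : Submodule ℂ E) +
        Module.finrank ℂ (U.map T ⊔ W : Submodule ℂ E) := by
  have h1 := finrank_map_ker T U
  have : FiniteDimensional ℂ (U ⊓ W.comap T : Submodule ℂ E) :=
    Submodule.finiteDimensional_inf_left _ _
  have h2 := finrank_map_ker T (U ⊓ W.comap T)
  have h3 := Submodule.finrank_sup_add_finrank_inf_eq (U.map T) W
  have e1 : (U ⊓ W.comap T).map T = U.map T ⊓ W := by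
    ext x
    constructor
    · rintro ⟨y, ⟨h1, h2⟩, rfl⟩
      exact ⟨⟨y, h1, rfl⟩, h2⟩
    · rintro ⟨⟨y, h1, rfl⟩, h2⟩
      exact ⟨y, ⟨h1, h2⟩, rfl⟩
  have e2 : U ⊓ W.comap T ⊓ LinearMap.ker T = U ⊓ LinearMap.ker T := by
    apply le_antisymm
    · exact inf_le_inf_right _ inf_le_left
    · intro x hx
      refine ⟨⟨hx.1, ?_⟩, hx.2⟩
      change T x ∈ W
      rw [LinearMap.mem_ker.1 hx.2]
      exact Submodule.zero_mem _
  rw [e1, e2] at h2
  omega

end linalg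

theorem finite_words (d : Sg m n →₀ ℕ) : {w : FreeMonoid (Sg m n) | deg w = d}.Finite := by
  have h : ({l : List (Sg m n) | (l : Multiset (Sg m n)) = Finsupp.toMultiset d}).Finite := by
    refine (Multiset.finite_toSet (Multiset.lists (Finsupp.toMultiset d))).subset ?_
    intro l hl
    exact (Multiset.mem_lists_iff _ _).2 hl.symm
  refine (h.preimage (f := FreeMonoid.toList) (FreeMonoid.toList.injective.injOn)).subset ?_
  intro w hw
  change (↑(FreeMonoid.toList w) : Multiset (Sg m n)) = Finsupp.toMultiset d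
  rw [← hw, deg, Multiset.toFinsupp_toMultiset]

instance (d : Sg m n →₀ ℕ) : FiniteDimensional ℂ (Gd d) :=
  FiniteDimensional.span_of_finite ℂ ((finite_words d).image _)

instance (d : Sg m n →₀ ℕ) (M : Submodule ℂ (FA m n)) :
    FiniteDimensional ℂ (M ⊓ Gd d : Submodule ℂ (FA m n)) :=
  Submodule.finiteDimensional_inf_right _ _

/-- dimension of a graded piece of a subquotient -/
def hd (m n k : ℕ) (d : Sg m n →₀ ℕ) : ℤ :=
  (Module.finrank ℂ (Lc (FA m n) k ⊓ Gd d : Submodule ℂ (FA m n)) : ℤ) -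
    (Module.finrank ℂ (Lc (FA m n) (k + 1) ⊓ Gd d : Submodule ℂ (FA m n)) : ℤ)

theorem hd_nonneg (k : ℕ) (d : Sg m n →₀ ℕ) : 0 ≤ hd m n k d := by
  have := Submodule.finrank_mono (inf_le_inf_right (Gd d) (Lc_anti (A := FA m n) k))
  rw [hd]
  omega

theorem hd_step (z : Sg m n) (k : ℕ) : ∃ N, ∀ d : Sg m n →₀ ℕ, N ≤ d z →
    hd m n (k + 1) (d + Finsupp.single z (cz z)) ≤ hd m n (k + 1) d := by
  obtain ⟨N, hN⟩ := X_surj z k
  refine ⟨N, fun d hd' => ?_⟩
  set e := d + Finsupp.single z (cz z) with he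
  have h1 := hN d hd'
  have h2 := dim_formula (Xz z) (Lc (FA m n) (k + 1) ⊓ Gd d) (Lc (FA m n) (k + 2) ⊓ Gd e)
  have e1 : (Lc (FA m n) (k + 1) ⊓ Gd d).map (Xz z) ⊔ (Lc (FA m n) (k + 2) ⊓ Gd e) =
      Lc (FA m n) (k + 1) ⊓ Gd e := by
    refine le_antisymm (sup_le ?_ (inf_le_inf_right _ (Lc_anti _))) h1
    rintro _ ⟨x, hx, rfl⟩
    exact ⟨Xz_Lc z hx.1, Xz_Gd z d x hx.2⟩
  rw [e1] at h2
  have h3 : Lc (FA m n) (k + 2) ⊓ Gd d ≤
      (Lc (FA m n) (k + 1) ⊓ Gd d) ⊓ (Lc (FA m n) (k + 2) ⊓ Gd e).comap (Xz z) := by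
    intro x hx
    exact ⟨⟨Lc_anti _ hx.1, hx.2⟩, ⟨Xz_Lc z hx.1, Xz_Gd z d x hx.2⟩⟩
  have : FiniteDimensional ℂ ((Lc (FA m n) (k + 1) ⊓ Gd d) ⊓
      (Lc (FA m n) (k + 2) ⊓ Gd e).comap (Xz z) : Submodule ℂ (FA m n)) :=
    Submodule.finiteDimensional_inf_left _ _
  have h4 := Submodule.finrank_mono h3
  have u1 : hd m n (k + 1) e =
    (Module.finrank ℂ (Lc (FA m n) (k + 1) ⊓ Gd e : Submodule ℂ (FA m n)) : ℤ) -
    (Module.finrank ℂ (Lc (FA m n) (k + 2) ⊓ Gd e : Submodule ℂ (FA m n)) : ℤ) := rfl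
  have u2 : hd m n (k + 1) d =
    (Module.finrank ℂ (Lc (FA m n) (k + 1) ⊓ Gd d : Submodule ℂ (FA m n)) : ℤ) -
    (Module.finrank ℂ (Lc (FA m n) (k + 2) ⊓ Gd d : Submodule ℂ (FA m n)) : ℤ) := rfl
  omega

end

end Pool.Agent.SuperLCS
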